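import Pool.Agent.Helper26.VW.Fr
import Pool.Agent.Helper61.GL.KRG

/-!
# Entropy in moving frames: change of frame, telescoping, window of one coordinate, chain rule
-/

set_option autoImplicit false

namespace Pool.Agent.Helper26.VW

open Matrix Finset Pool.Agent.Helper69.RK Pool.Agent.Helper61.GL

variable {r : ℕ} {Ω α β γ κ : Type} [Fintype Ω]

/-- cell of level `N` in the frame `M` -/
noncomputable def pf (M : Mt r) (N : ℕ) (z : Fin r → ℝ) : Fin r → ℤ := fun k => ⌊(2 : ℝ) ^ N * (M⁻¹ *ᵥ z) k⌋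

theorem mass_nonneg (μ : Ω → ℝ) (hμ : ∀ ω, 0 ≤ μ ω) : 0 ≤ mass μ := Finset.sum_nonneg fun ω _ => hμ ω

theorem pf_near {M M' : Mt r} (hM' : M'.det ≠ 0) {K : ℝ} (hK : Bdd K (M⁻¹ * M')) (hK0 : 0 ≤ K) (N : ℕ)
    {z z' : Fin r → ℝ} (h : pf M' N z = pf M' N z') (k : Fin r) :
    |(pf M N z k : ℝ) - pf M N z' k| ≤ r * K + 1 := by
  have h1 : ∀ j, |(2 : ℝ) ^ N * (M'⁻¹ *ᵥ z) j - (2 : ℝ) ^ N * (M'⁻¹ *ᵥ z') j| ≤ 1 := fun j =>
    floor_eq_near (congrFun h j)
  have h2 : ∀ z : Fin r → ℝ, M⁻¹ *ᵥ z = (M⁻¹ * M') *ᵥ (M'⁻¹ *ᵥ z) := by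
    intro z
    rw [Matrix.mulVec_mulVec, Matrix.mul_assoc, Matrix.mul_nonsing_inv _ (isUnit_iff_ne_zero.2 hM'),
      Matrix.mul_one]
  refine (floor_near _ _).trans (add_le_add_left ?_ 1)
  have h3 : (2 : ℝ) ^ N * (M⁻¹ *ᵥ z) k - (2 : ℝ) ^ N * (M⁻¹ *ᵥ z') k
      = ((M⁻¹ * M') *ᵥ (fun j => (2 : ℝ) ^ N * (M'⁻¹ *ᵥ z) j - (2 : ℝ) ^ N * (M'⁻¹ *ᵥ z') j)) k := by
    rw [h2 z, h2 z']
    simp only [Matrix.mulVec, dotProduct]
    rw [Finset.mul_sum, Finset.mul_sum, ← Finset.sum_sub_distrib]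
    refine Finset.sum_congr rfl fun j _ => ?_
    ring
  rw [h3]
  have h4 := mulVec_le hK0 hK h1 k
  rw [mul_one] at h4
  exact h4

/-- CHANGE OF FRAME -/
theorem pf_change (μ : Ω → ℝ) (hμ : ∀ ω, 0 ≤ μ ω) (z : Ω → Fin r → ℝ) (G : Ω → γ) (M M' : Mt r)
    (hM' : M'.det ≠ 0) (K : ℝ) (hK0 : 0 ≤ K) (hK : Bdd K (M⁻¹ * M')) (N : ℕ) :
    CH μ (fun ω => pf M N (z ω)) (fun ω => (pf M' N (z ω), G ω)) ≤
      r * Real.logb 2 (r * K + 2) * mass μ := by
  have h1 := st_E3.2 Ω ((Fin r → ℤ) × γ) r μ (fun ω => pf M N (z ω)) (fun ω => (pf M' N (z ω), G ω))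
    (r * K + 1) hμ (by positivity) (fun ω ω' _ _ e k => pf_near hM' hK hK0 N (Prod.ext_iff.1 e).1 k)
  refine h1.trans (le_of_eq ?_)
  rw [add_assoc]
  norm_num

theorem pf_ref {M : Mt r} {N N' : ℕ} (h : N ≤ N') {z z' : Fin r → ℝ} (e : pf M N' z = pf M N' z') :
    pf M N z = pf M N z' := by
  funext k
  exact fl_ref h (congrFun e k)

/-- comparison of two frames at the same level -/
theorem pf_compare (μ : Ω → ℝ) (hμ : ∀ ω, 0 ≤ μ ω) (z : Ω → Fin r → ℝ) (G : Ω → γ) (M M' : Mt r)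
    (hM' : M'.det ≠ 0) (K : ℝ) (hK0 : 0 ≤ K) (hK : Bdd K (M⁻¹ * M')) (N : ℕ) :
    CH μ (fun ω => pf M N (z ω)) G ≤ CH μ (fun ω => pf M' N (z ω)) G +
      r * Real.logb 2 (r * K + 2) * mass μ := by
  have h1 := ch_tri μ hμ (fun ω => pf M N (z ω)) (fun ω => pf M' N (z ω)) G
  have h2 := pf_change μ hμ z G M M' hM' K hK0 hK N
  linarith

theorem sum_shift (f : ℕ → ℝ) (a n R : ℕ) (h : a ≤ n) :
    ∑ N ∈ Ico a n, (f (N + R) - f N) = ∑ N ∈ range R, f (n + N) - ∑ N ∈ range R, f (a + N) := by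
  induction n, h using Nat.le_induction with
  | base => simp
  | succ n hn ih =>
    rw [Finset.sum_Ico_succ_top hn, ih]
    have h1 : ∑ N ∈ range R, f (n + 1 + N) = ∑ N ∈ range R, f (n + N) + f (n + R) - f n := by
      have h2 := Finset.sum_range_succ (fun N => f (n + N)) R
      have h3 := Finset.sum_range_succ' (fun N => f (n + N)) R
      have h4 : ∀ N, f (n + 1 + N) = f (n + (N + 1)) := fun N => by rw [add_assoc, add_comm 1 N]
      rw [Finset.sum_congr rfl fun N _ => h4 N]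
      have h5 : f (n + 0) = f n := by rw [add_zero]
      linarith
    rw [h1]
    ring

/-- TELESCOPING in moving frames -/
theorem tel (μ : Ω → ℝ) (hμ : ∀ ω, 0 ≤ μ ω) (z : Ω → Fin r → ℝ) (G : Ω → γ) (M : ℕ → Mt r)
    (hM : ∀ N, (M N).det ≠ 0) (R : ℕ) (K : ℕ → ℝ) (hK0 : ∀ N, 0 ≤ K N)
    (hK : ∀ N, Bdd (K N) ((M N)⁻¹ * M (N + R))) (a n : ℕ) (han : a ≤ n) :
    ∑ N ∈ Ico a n, CH μ (fun ω => pf (M N) (N + R) (z ω)) (fun ω => (pf (M N) N (z ω), G ω)) ≤
      ∑ N ∈ range R, CH μ (fun ω => pf (M (n + N)) (n + N) (z ω)) G -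
      ∑ N ∈ range R, CH μ (fun ω => pf (M (a + N)) (a + N) (z ω)) G +
      ∑ N ∈ Ico a n, r * Real.logb 2 (r * K N + 2) * mass μ := by
  rw [← sum_shift (fun N => CH μ (fun ω => pf (M N) N (z ω)) G) a n R han, ← Finset.sum_add_distrib]
  refine Finset.sum_le_sum fun N _ => ?_
  have h1 := ch_diff μ (fun ω => pf (M N) (N + R) (z ω)) (fun ω => pf (M N) N (z ω)) G
    (fun ω ω' _ _ _ e => pf_ref (Nat.le_add_right N R) e)
  have h2 := pf_compare μ hμ z G (M N) (M (N + R)) (hM _) (K N) (hK0 N) (hK N) (N + R)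
  linarith

/-! ### one coordinate -/

/-- WINDOW OF ONE COORDINATE: given `K` the vector `x` moves along the `i`-th axis only -/
theorem win (μ : Ω → ℝ) (hμ : ∀ ω, 0 ≤ μ ω) (x : Ω → Fin r → ℝ) (K : Ω → κ) (G : Ω → γ)
    (N R : ℕ) (i : Fin r) (C : ℝ)
    (hC : 0 ≤ C) (τ : Ω → ℝ) (c : κ → Fin r → ℝ)
    (h1 : ∀ ω, μ ω ≠ 0 → |x ω i - c (K ω) i - τ ω| * 2 ^ (N + R) ≤ C)
    (h2 : ∀ ω, μ ω ≠ 0 → |τ ω| * 2 ^ N ≤ C)
    (h3 : ∀ ω, μ ω ≠ 0 → ∀ j, j ≠ i → |x ω j - c (K ω) j| * 2 ^ (N + R) ≤ C) :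
    CH μ (fun ω => ⌊(2 : ℝ) ^ (N + R) * τ ω⌋) K ≤
      CH μ (fun ω => ⌊(2 : ℝ) ^ (N + R) * x ω i⌋) (fun ω => (⌊(2 : ℝ) ^ N * x ω i⌋,
        ((fun j : {j // j ≠ i} => ⌊(2 : ℝ) ^ (N + R) * x ω j⌋), G ω))) +
      (r + 2) * Real.logb 2 (4 * C + 3) * mass μ + CH μ G K := by
  have hms := mass_nonneg μ hμ
  set L : ℝ := Real.logb 2 (4 * C + 3) with hL
  have hL0 : 0 ≤ L := Real.logb_nonneg (by norm_num) (by linarith)
  set X : Ω → ℤ := fun ω => ⌊(2 : ℝ) ^ (N + R) * x ω i⌋ with hX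
  set X0 : Ω → ℤ := fun ω => ⌊(2 : ℝ) ^ N * x ω i⌋ with hX0
  set Y : Ω → {j // j ≠ i} → ℤ := fun ω j => ⌊(2 : ℝ) ^ (N + R) * x ω j⌋ with hY
  set T : Ω → ℤ := fun ω => ⌊(2 : ℝ) ^ (N + R) * τ ω⌋ with hT
  have hp : (0 : ℝ) < 2 ^ (N + R) := by positivity
  have hp0 : (0 : ℝ) < 2 ^ N := by positivity
  have hlog : ∀ t : ℝ, 0 ≤ t → t ≤ 4 * C + 2 → Real.logb 2 (t + 1) * mass μ ≤ L * mass μ := by
    intro t ht ht'
    apply mul_le_mul_of_nonneg_right _ hms
    exact Real.logb_le_logb_of_le (by norm_num) (by linarith) (by linarith)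
  -- a) T given X and K
  have a1 : CH μ T K ≤ CH μ X K + L * mass μ := by
    have e1 := ch_tri μ hμ T X K
    have e2 := ch_int μ hμ T (fun ω => (X ω, K ω)) (2 * C + 2) (by linarith) (by
      intro ω ω' m m' e
      rw [Prod.mk.injEq] at e
      have g1 := floor_eq_near e.1
      have g2 := h1 ω m
      have g3 := h1 ω' m'
      rw [e.2] at g2
      refine (floor_near _ _).trans ?_
      have g4 : |(2 : ℝ) ^ (N + R) * τ ω - 2 ^ (N + R) * τ ω'| ≤ 2 * C + 1 := by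
        rw [← abs_of_pos hp, ← abs_mul, abs_le] at g2 g3
        rw [abs_le] at g1 ⊢
        constructor <;> nlinarith
      linarith)
    have e3 := hlog (2 * C + 2) (by linarith) (by linarith)
    linarith
  -- b) X given K
  have b1 : CH μ (fun ω => (X0 ω, Y ω)) K ≤ (r + 1) * L * mass μ := by
    have e1 := ch_chain μ X0 Y K
    have e2 : CH μ X0 K ≤ L * mass μ := by
      refine (ch_int μ hμ X0 K (4 * C + 1) (by linarith) ?_).trans (hlog _ (by linarith) (by linarith))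
      intro ω ω' m m' e
      have g2 := h1 ω m
      have g3 := h1 ω' m'
      have g5 := h2 ω m
      have g6 := h2 ω' m'
      rw [e] at g2
      refine (floor_near _ _).trans ?_
      have g4 : |(2 : ℝ) ^ N * x ω i - 2 ^ N * x ω' i| ≤ 4 * C := by
        have q1 : |x ω i - c (K ω') i - τ ω| * 2 ^ N ≤ C := le_trans (by
          apply mul_le_mul_of_nonneg_left _ (abs_nonneg _)
          exact pow_le_pow_right₀ (by norm_num) (Nat.le_add_right _ _)) g2
        have q2 : |x ω' i - c (K ω') i - τ ω'| * 2 ^ N ≤ C := le_trans (by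
          apply mul_le_mul_of_nonneg_left _ (abs_nonneg _)
          exact pow_le_pow_right₀ (by norm_num) (Nat.le_add_right _ _)) g3
        rw [← abs_of_pos hp0, ← abs_mul, abs_le] at q1 q2 g5 g6
        rw [abs_le]
        constructor <;> nlinarith
      linarith
    have e3 : CH μ Y (fun ω => (X0 ω, K ω)) ≤ r * L * mass μ := by
      classical
      have f1 : CH μ Y (fun ω => (X0 ω, K ω)) ≤
          CH μ (fun ω => fun j : Fin r => if j = i then (0 : ℤ) else ⌊(2 : ℝ) ^ (N + R) * x ω j⌋)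
            (fun ω => (X0 ω, K ω)) := by
        apply ch_mono μ hμ
        intro ω ω' _ _ e _
        funext j
        have := congrFun e (j : Fin r)
        simp only [if_neg j.2] at this
        exact this
      refine f1.trans ?_
      have f2 := st_E3.2 Ω _ r μ (fun ω => fun j : Fin r => if j = i then (0 : ℤ) else
        ⌊(2 : ℝ) ^ (N + R) * x ω j⌋) (fun ω => (X0 ω, K ω)) (2 * C + 1) hμ (by linarith) (by
        intro ω ω' m m' e j
        rw [Prod.mk.injEq] at e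
        by_cases hj : j = i
        · simp only [if_pos hj]
          rw [sub_self, abs_zero]
          linarith
        · simp only [if_neg hj]
          have g2 := h3 ω m j hj
          have g3 := h3 ω' m' j hj
          rw [e.2] at g2
          refine (floor_near _ _).trans ?_
          have g4 : |(2 : ℝ) ^ (N + R) * x ω j - 2 ^ (N + R) * x ω' j| ≤ 2 * C := by
            rw [← abs_of_pos hp, ← abs_mul, abs_le] at g2 g3
            rw [abs_le]
            constructor <;> nlinarith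
          linarith)
      refine f2.trans ?_
      have f3 := hlog (2 * C + 1) (by linarith) (by linarith)
      have f4 : (0 : ℝ) ≤ r := Nat.cast_nonneg r
      nlinarith
    linarith
  have b2 := ch_chain μ (fun ω => (X0 ω, Y ω)) G K
  have b3 := ch_cond μ hμ G K (fun ω => ((X0 ω, Y ω), K ω)) (fun ω ω' _ _ e => (Prod.ext_iff.1 e).2)
  have c1 := ch_tri μ hμ X (fun ω => ((X0 ω, Y ω), G ω)) K
  have c2 := ch_cond μ hμ X (fun ω => (X0 ω, (Y ω, G ω))) (fun ω => (((X0 ω, Y ω), G ω), K ω))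
    (fun ω ω' m m' e => by
      rw [Prod.mk.injEq, Prod.mk.injEq, Prod.mk.injEq] at e
      exact Prod.ext e.1.1.1 (Prod.ext e.1.1.2 e.1.2))
  linarith

/-- CHAIN RULE from below -/
theorem ch_pi_ge {ι : Type} [Fintype ι] (μ : Ω → ℝ) (hμ : ∀ ω, 0 ≤ μ ω) (D : ι → Ω → α) (G : Ω → γ) :
    ∑ i, CH μ (D i) (fun ω => ((fun j : {j // j ≠ i} => D j ω), G ω)) ≤
      CH μ (fun ω => fun i => D i ω) G := by
  classical
  have key : ∀ s : Finset ι, ∑ i ∈ s, CH μ (D i) (fun ω => ((fun j : {j // j ≠ i} => D j ω), G ω)) ≤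
      CH μ (fun ω => fun i : {i // i ∈ s} => D i ω) G := by
    intro s
    induction s using Finset.induction_on with
    | empty =>
      rw [Finset.sum_empty]
      exact ch_nonneg μ hμ _ _
    | insert a s ha ih =>
      rw [Finset.sum_insert ha]
      have e1 : CH μ (fun ω => fun i : {i // i ∈ insert a s} => D i ω) G
          = CH μ (fun ω => ((fun i : {i // i ∈ s} => D i ω), D a ω)) G := by
        apply ch_congr_left
        intro ω ω' _ _ _
        rw [Prod.mk.injEq]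
        constructor
        · intro e
          exact ⟨funext fun i => congrFun e ⟨i, Finset.mem_insert_of_mem i.2⟩,
            congrFun e ⟨a, Finset.mem_insert_self a s⟩⟩
        · rintro ⟨e, e'⟩
          funext ⟨i, hi⟩
          rcases Finset.mem_insert.1 hi with rfl | hi'
          · exact e'
          · exact congrFun e ⟨i, hi'⟩
      rw [e1, ch_chain]
      have e2 := ch_cond μ hμ (D a) (fun ω => ((fun i : {i // i ∈ s} => D i ω), G ω))
        (fun ω => ((fun j : {j // j ≠ a} => D j ω), G ω)) (fun ω ω' _ _ e => by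
          rw [Prod.mk.injEq] at e
          refine Prod.ext (funext fun i => ?_) e.2
          exact congrFun e.1 ⟨i, fun h => ha (h ▸ i.2)⟩)
      linarith
  refine (key univ).trans (le_of_eq ?_)
  apply ch_congr_left
  intro ω ω' _ _ _
  exact ⟨fun e => funext fun i => congrFun e ⟨i, Finset.mem_univ i⟩, fun e => funext fun i => congrFun e i.1⟩

end Pool.Agent.Helper26.VW
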