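import Mathlib

/-!
# Coded frames for increasing families of vectors (vector W: notes 25c, section 2)
-/

set_option autoImplicit false

namespace Pool.Agent.Helper26.VW

open Matrix Finset

variable {b : ℕ}

/-- square matrices of size `b` -/
abbrev Mt (b : ℕ) : Type := Matrix (Fin b) (Fin b) ℝ

/-- the columns of `W` lie in `Q` -/
def Cols (W : Mt b) (Q : Set (Fin b → ℝ)) : Prop := ∀ k, (fun i => W i k) ∈ Q

/-- all entries are at most `C` -/
def Bdd (C : ℝ) (W : Mt b) : Prop := ∀ i k, |W i k| ≤ C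

theorem Bdd.mono {C C' : ℝ} {W : Mt b} (h : Bdd C W) (hC : C ≤ C') : Bdd C' W :=
  fun i k => (h i k).trans hC

theorem Bdd.mul {x y : ℝ} {X Y : Mt b} (hx : 0 ≤ x) (hX : Bdd x X) (hY : Bdd y Y) :
    Bdd (b * (x * y)) (X * Y) := by
  intro i k
  rw [Matrix.mul_apply]
  refine (Finset.abs_sum_le_sum_abs _ _).trans ?_
  refine (Finset.sum_le_sum (g := fun _ => x * y) fun j _ => ?_).trans ?_
  · rw [abs_mul]
    exact mul_le_mul (hX i j) (hY j k) (abs_nonneg _) hx
  · simp

theorem mulVec_le {x y : ℝ} {X : Mt b} {v : Fin b → ℝ} (hx : 0 ≤ x) (hX : Bdd x X)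
    (hv : ∀ k, |v k| ≤ y) (i : Fin b) : |(X *ᵥ v) i| ≤ b * (x * y) := by
  rw [Matrix.mulVec, dotProduct]
  refine (Finset.abs_sum_le_sum_abs _ _).trans ?_
  refine (Finset.sum_le_sum (g := fun _ => x * y) fun j _ => ?_).trans ?_
  · rw [abs_mul]
    exact mul_le_mul (hX i j) (hv j) (abs_nonneg _) hx
  · simp

theorem det_bd {C : ℝ} {W : Mt b} (h : Bdd C W) : |W.det| ≤ b.factorial * C ^ b := by
  have := Matrix.det_le (A := W) (abv := AbsoluteValue.abs) (x := C) (fun i j => h i j)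
  rw [Fintype.card_fin, nsmul_eq_mul] at this
  exact this

theorem adj_bd {C : ℝ} (hC : 1 ≤ C) {W : Mt b} (h : Bdd C W) : Bdd (b.factorial * C ^ b) W.adjugate := by
  intro i j
  rw [Matrix.adjugate_apply]
  apply det_bd
  intro k l
  rw [Matrix.updateRow_apply]
  split_ifs with h1
  · by_cases h2 : l = i
    · rw [h2, Pi.single_eq_same, abs_one]
      exact hC
    · rw [Pi.single_eq_of_ne h2, abs_zero]
      linarith
  · exact h k l

/-- entries of the inverse -/
theorem inv_bd {C : ℝ} (hC : 1 ≤ C) {W : Mt b} (h : Bdd C W) :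
    Bdd (b.factorial * C ^ b * |W.det|⁻¹) W⁻¹ := by
  intro i j
  rw [Matrix.inv_def, Matrix.smul_apply, smul_eq_mul, abs_mul, Ring.inverse_eq_inv, abs_inv, mul_comm]
  exact mul_le_mul_of_nonneg_right (adj_bd hC h i j) (by positivity)

/-- Cramer -/
theorem coef (W : Mt b) (hW : W.det ≠ 0) (u : Fin b → ℝ) (K : ℝ)
    (hu : ∀ k, |(W.updateCol k u).det| ≤ K * |W.det|) (k : Fin b) : |(W⁻¹ *ᵥ u) k| ≤ K := by
  have h1 : W⁻¹ *ᵥ u = W.det⁻¹ • W.cramer u := by
    have h2 := Matrix.mulVec_cramer W u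
    have h3 : W⁻¹ *ᵥ (W *ᵥ (W.cramer u)) = W.cramer u := by
      rw [Matrix.mulVec_mulVec, Matrix.nonsing_inv_mul _ (isUnit_iff_ne_zero.2 hW), Matrix.one_mulVec]
    rw [h2, Matrix.mulVec_smul] at h3
    rw [← h3, smul_smul, inv_mul_cancel₀ hW, one_smul]
  rw [h1, Pi.smul_apply, smul_eq_mul, abs_mul, abs_inv, Matrix.cramer_apply]
  have h4 : 0 < |W.det| := abs_pos.2 hW
  rw [inv_mul_le_iff₀ h4, mul_comm]
  exact hu k

theorem Cols.update {W : Mt b} {Q : Set (Fin b → ℝ)} (hW : Cols W Q) {u : Fin b → ℝ} (hu : u ∈ Q)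
    (k : Fin b) : Cols (W.updateCol k u) Q := by
  intro j
  by_cases h : j = k
  · have : (fun i => (W.updateCol k u) i j) = u := by
      funext i
      rw [Matrix.updateCol_apply, if_pos h]
    rw [this]
    exact hu
  · have : (fun i => (W.updateCol k u) i j) = fun i => W i j := by
      funext i
      rw [Matrix.updateCol_apply, if_neg h]
    rw [this]
    exact hW j

/-- members of `Q` in a nearly maximal frame -/
theorem coef_max (W : Mt b) (hW : W.det ≠ 0) (Q : Set (Fin b → ℝ)) (hc : Cols W Q) (K : ℝ)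
    (hm : ∀ X, Cols X Q → |X.det| ≤ K * |W.det|) (u : Fin b → ℝ) (hu : u ∈ Q) (k : Fin b) :
    |(W⁻¹ *ᵥ u) k| ≤ K :=
  coef W hW u K (fun j => hm _ (hc.update hu j)) k

theorem coef_mat (W : Mt b) (hW : W.det ≠ 0) (Q : Set (Fin b → ℝ)) (hc : Cols W Q) (K : ℝ)
    (hm : ∀ X, Cols X Q → |X.det| ≤ K * |W.det|) (Y : Mt b) (hY : Cols Y Q) :
    Bdd K (W⁻¹ * Y) := by
  intro i k
  have h := coef_max W hW Q hc K hm _ (hY k) i
  have e : (W⁻¹ *ᵥ (fun i => Y i k)) i = (W⁻¹ * Y) i k := by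
    rw [Matrix.mul_apply, Matrix.mulVec, dotProduct]
  rw [← e]
  exact h

/-- small perturbations of the identity -/
theorem pert_vec (E : Mt b) (hE : Bdd (1 / (2 * b + 1)) E) (x y : Fin b → ℝ) (K : ℝ)
    (h : (1 + E) *ᵥ x = y) (hy : ∀ k, |y k| ≤ K) (k : Fin b) : |x k| ≤ 2 * K := by
  classical
  obtain ⟨m, -, hm⟩ := Finset.exists_max_image (univ : Finset (Fin b)) (fun k => |x k|) ⟨k, mem_univ k⟩
  have h1 : x m = y m - (E *ᵥ x) m := by
    have := congrFun h m
    rw [Matrix.add_mulVec, Matrix.one_mulVec, Pi.add_apply] at this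
    linarith
  have h2 := mulVec_le (X := E) (v := x) (x := 1 / (2 * (b : ℝ) + 1)) (y := |x m|) (by positivity) hE
    (fun j => hm j (mem_univ j)) m
  have h3 : (b : ℝ) * (1 / (2 * b + 1) * |x m|) ≤ 1 / 2 * |x m| := by
    rw [← mul_assoc]
    apply mul_le_mul_of_nonneg_right _ (abs_nonneg _)
    rw [mul_one_div, div_le_div_iff₀ (by positivity) (by norm_num)]
    linarith
  have h4 : |x m| ≤ |y m| + |(E *ᵥ x) m| := by
    rw [h1]
    exact abs_sub _ _
  have h5 := hy m
  have h6 := hm k (mem_univ k)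
  linarith

theorem pert_det (E : Mt b) (hE : Bdd (1 / (2 * b + 1)) E) : (1 + E).det ≠ 0 := by
  intro h
  obtain ⟨v, hv, h1⟩ := Matrix.exists_mulVec_eq_zero_iff.2 h
  apply hv
  funext k
  have := pert_vec E hE v 0 0 h1 (fun k => by simp) k
  rw [mul_zero] at this
  exact abs_nonpos_iff.1 this

theorem pert_inv (E : Mt b) (hE : Bdd (1 / (2 * b + 1)) E) : Bdd 2 (1 + E)⁻¹ := by
  intro i k
  have h1 : (1 + E) * (1 + E)⁻¹ = 1 := Matrix.mul_nonsing_inv _ (isUnit_iff_ne_zero.2 (pert_det E hE))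
  have h2 : (1 + E) *ᵥ (fun i => (1 + E)⁻¹ i k) = fun i => (1 : Mt b) i k := by
    funext i
    have e := congrFun (congrFun h1 i) k
    rw [Matrix.mul_apply] at e
    exact e
  have h3 := pert_vec E hE _ _ 1 h2 (fun j => by
    rw [Matrix.one_apply]
    split_ifs <;> simp) i
  linarith

theorem pert_bd (E : Mt b) (hE : Bdd (1 / (2 * b + 1)) E) : Bdd 2 (1 + E) := by
  intro i k
  rw [Matrix.add_apply]
  have h1 := hE i k
  have h2 : |(1 : Mt b) i k| ≤ 1 := by
    rw [Matrix.one_apply]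
    split_ifs <;> simp
  have h3 : (1 : ℝ) / (2 * b + 1) ≤ 1 := by
    rw [div_le_one (by positivity)]
    have : (0 : ℝ) ≤ b := Nat.cast_nonneg b
    linarith
  have := abs_add_le ((1 : Mt b) i k) (E i k)
  linarith

/-- bodies: sets of vectors which contain the vectors `δ e_k` and whose determinants are at most `Δ` -/
structure Bod (δ Δ : ℝ) (Q : Set (Fin b → ℝ)) : Prop where
  un : ∀ k : Fin b, (fun i => if i = k then δ else 0) ∈ Q
  bd : ∀ W : Mt b, Cols W Q → |W.det| ≤ Δ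

theorem Bod.diag {δ Δ : ℝ} {Q : Set (Fin b → ℝ)} (h : Bod δ Δ Q) : Cols (δ • (1 : Mt b)) Q := by
  intro k
  have : (fun i => (δ • (1 : Mt b)) i k) = fun i => if i = k then δ else 0 := by
    funext i
    rw [Matrix.smul_apply, Matrix.one_apply]
    split_ifs <;> simp
  rw [this]
  exact h.un k

theorem det_diag (δ : ℝ) : (δ • (1 : Mt b)).det = δ ^ b := by
  rw [Matrix.det_smul, Matrix.det_one, Fintype.card_fin, mul_one]

/-- nearly maximal frames -/
theorem Bod.near {δ Δ : ℝ} {Q : Set (Fin b → ℝ)} (hδ : 0 < δ) (h : Bod δ Δ Q) :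
    ∃ W : Mt b, Cols W Q ∧ W.det ≠ 0 ∧ ∀ X, Cols X Q → |X.det| ≤ 2 * |W.det| := by
  set S : Set ℝ := {d | ∃ W : Mt b, Cols W Q ∧ d = |W.det|} with hS
  have h0 : δ ^ b ∈ S := ⟨_, h.diag, by rw [det_diag, abs_of_pos (pow_pos hδ b)]⟩
  have hb : BddAbove S := ⟨Δ, by
    rintro d ⟨W, hW, rfl⟩
    exact h.bd W hW⟩
  have h1 : δ ^ b ≤ sSup S := le_csSup hb h0
  have h2 : 0 < δ ^ b := pow_pos hδ b
  obtain ⟨d, ⟨W, hW, rfl⟩, hd⟩ := exists_lt_of_lt_csSup (s := S) (b := sSup S / 2) ⟨_, h0⟩ (by linarith)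
  refine ⟨W, hW, ?_, fun X hX => ?_⟩
  · intro h3
    rw [h3, abs_zero] at hd
    linarith
  · have := le_csSup hb ⟨X, hX, rfl⟩
    linarith

/-- the denominator of the coded matrices -/
def KK (b : ℕ) : ℕ := 2 * b ^ 2 * (2 * b + 1) + 1

/-- code of one step -/
abbrev Cd (b : ℕ) : Type := Option (Fin b → Fin b → ℤ)

/-- the coded matrix -/
noncomputable def val (Z : Fin b → Fin b → ℤ) : Mt b := fun i k => (Z i k : ℝ) / KK b

/-- one step of the decoding -/
noncomputable def upd (B : Mt b) : Cd b → Mt b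
  | none => B
  | some Z => B * val Z

/-- the decoding: `dec δ c N` is the frame before step `N` -/
noncomputable def dec (δ : ℝ) (c : ℕ → Cd b) : ℕ → Mt b
  | 0 => δ • 1
  | N + 1 => upd (dec δ c N) (c N)

/-- the cost of a code -/
noncomputable def cst : Cd b → ℝ
  | none => 0
  | some Z => 1 + ∑ i, ∑ k, Real.logb 2 (1 + |(Z i k : ℝ)|)

/-- the constant of the coding -/
noncomputable def CC (b : ℕ) : ℝ :=
  1 + (b : ℝ) ^ 2 * (Real.logb 2 (2 + KK b * (b * (2 * (b.factorial * 2 ^ b)))) + 1)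

/-- the frames which approximate the coded one -/
def Apx (W B : Mt b) : Prop := ∃ E : Mt b, B = W * (1 + E) ∧ Bdd (1 / (2 * b + 1)) E

theorem Apx.refl (W : Mt b) : Apx W W := ⟨0, by rw [add_zero, Matrix.mul_one], fun i k => by
  rw [Matrix.zero_apply, abs_zero]
  positivity⟩

theorem KK_pos (b : ℕ) : (0 : ℝ) < KK b := by
  rw [KK]
  positivity

/-- ONE STEP -/
theorem step {δ Δ : ℝ} (hδ : 0 < δ) {Q : Set (Fin b → ℝ)} (hQ : Bod δ Δ Q) (W B : Mt b) (hW : Cols W Q)
    (hd : W.det ≠ 0) (hB : Apx W B) :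
    ∃ (c : Cd b) (W' : Mt b), Cols W' Q ∧ W'.det ≠ 0 ∧ (∀ X, Cols X Q → |X.det| ≤ 4 * |W'.det|) ∧
      Apx W' (upd B c) ∧ cst c ≤ CC b * (Real.logb 2 |W'.det| - Real.logb 2 |W.det|) := by
  by_cases h : ∀ X, Cols X Q → |X.det| ≤ 4 * |W.det|
  · refine ⟨none, W, hW, hd, h, hB, ?_⟩
    rw [sub_self, mul_zero]
    exact le_rfl
  · push Not at h
    obtain ⟨X, hX, hX4⟩ := h
    obtain ⟨W', hW', hd', hm⟩ := hQ.near hδ
    have hXW := hm X hX
    have hp : 0 < |W.det| := abs_pos.2 hd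
    have hp' : 0 < |W'.det| := abs_pos.2 hd'
    obtain ⟨E, rfl, hE⟩ := hB
    set G : Mt b := W'⁻¹ * W with hG
    have hGb : Bdd 2 G := coef_mat W' hd' Q hW' 2 hm W hW
    have hGd : G.det = W.det / W'.det := by
      rw [hG, Matrix.det_mul, Matrix.det_nonsing_inv, Ring.inverse_eq_inv]
      field_simp
    have hGd0 : G.det ≠ 0 := by
      rw [hGd]
      exact div_ne_zero hd hd'
    set ρ : ℝ := |W'.det| / |W.det| with hρ
    have hρ2 : 2 < ρ := by
      rw [hρ, lt_div_iff₀ hp]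
      linarith
    have hGi : Bdd (b.factorial * 2 ^ b * ρ) G⁻¹ := by
      have := inv_bd (C := 2) (by norm_num) hGb
      rw [hGd, abs_div, inv_div] at this
      exact this
    have hEi := pert_inv E hE
    have hEd := pert_det E hE
    set A : Mt b := (1 + E)⁻¹ * G⁻¹ with hA
    have hAb : Bdd (b * (2 * (b.factorial * 2 ^ b * ρ))) A := Bdd.mul (by norm_num) hEi hGi
    have hBA : W * (1 + E) * A = W' := by
      have e1 : (1 + E) * (1 + E)⁻¹ = 1 := Matrix.mul_nonsing_inv _ (isUnit_iff_ne_zero.2 hEd)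
      have e2 : W' * G = W := by
        rw [hG, ← Matrix.mul_assoc, Matrix.mul_nonsing_inv _ (isUnit_iff_ne_zero.2 hd'), Matrix.one_mul]
      have e3 : G * G⁻¹ = 1 := Matrix.mul_nonsing_inv _ (isUnit_iff_ne_zero.2 hGd0)
      calc W * (1 + E) * A = W * ((1 + E) * (1 + E)⁻¹) * G⁻¹ := by
            rw [hA]; simp only [Matrix.mul_assoc]
        _ = W' * (G * G⁻¹) := by rw [e1, Matrix.mul_one, ← Matrix.mul_assoc, e2]
        _ = W' := by rw [e3, Matrix.mul_one]
    set Z : Fin b → Fin b → ℤ := fun i k => round ((KK b : ℝ) * A i k) with hZ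
    have hK := KK_pos b
    have hH : Bdd (1 / (2 * KK b)) (A - val Z) := by
      intro i k
      rw [Matrix.sub_apply, val, hZ]
      have e1 : A i k - (round ((KK b : ℝ) * A i k) : ℝ) / KK b
          = ((KK b : ℝ) * A i k - round ((KK b : ℝ) * A i k)) / KK b := by
        field_simp
      show |A i k - (round ((KK b : ℝ) * A i k) : ℝ) / KK b| ≤ _
      rw [e1, abs_div, abs_of_pos hK, div_le_div_iff₀ hK (by positivity)]
      have := abs_sub_round ((KK b : ℝ) * A i k)
      nlinarith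
    refine ⟨some Z, W', hW', hd', fun X hX => (hm X hX).trans (by linarith), ?_, ?_⟩
    · refine ⟨-(G * ((1 + E) * (A - val Z))), ?_, ?_⟩
      · have e2 : W' * G = W := by
          rw [hG, ← Matrix.mul_assoc, Matrix.mul_nonsing_inv _ (isUnit_iff_ne_zero.2 hd'), Matrix.one_mul]
        have e4 : W' * (G * ((1 + E) * (A - val Z))) = W' - W * (1 + E) * val Z := by
          rw [← Matrix.mul_assoc, e2, ← Matrix.mul_assoc, Matrix.mul_sub, hBA]
        show W * (1 + E) * val Z = _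
        rw [Matrix.mul_add W', Matrix.mul_one, Matrix.mul_neg, e4]
        abel
      · have h1 := Bdd.mul (by norm_num) (pert_bd E hE) hH
        have h2 := Bdd.mul (by norm_num) hGb h1
        intro i k
        rw [Matrix.neg_apply, abs_neg]
        refine (h2 i k).trans ?_
        have e1 : (b : ℝ) * (2 * (b * (2 * (1 / (2 * KK b))))) = 2 * b ^ 2 / KK b := by
          field_simp
          try ring
        rw [e1, div_le_div_iff₀ hK (by positivity), KK]
        push_cast
        nlinarith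
    · have hl : Real.logb 2 |W'.det| - Real.logb 2 |W.det| = Real.logb 2 ρ := by
        rw [hρ, Real.logb_div hp'.ne' hp.ne']
      rw [hl]
      have hρ1 : 1 < Real.logb 2 ρ := by
        rw [Real.lt_logb_iff_rpow_lt (by norm_num) (by linarith), Real.rpow_one]
        exact hρ2
      set L : ℝ := Real.logb 2 (2 + KK b * (b * (2 * (b.factorial * 2 ^ b)))) with hL
      have hL1 : 1 ≤ L := by
        rw [hL, Real.le_logb_iff_rpow_le (by norm_num) (by positivity), Real.rpow_one]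
        have : (0 : ℝ) ≤ KK b * (b * (2 * (b.factorial * 2 ^ b))) := by positivity
        linarith
      have hz : ∀ i k, Real.logb 2 (1 + |(Z i k : ℝ)|) ≤ L + Real.logb 2 ρ := by
        intro i k
        rw [hL, ← Real.logb_mul (by positivity) (by linarith)]
        apply Real.logb_le_logb_of_le (by norm_num) (by positivity)
        have e1 : |(Z i k : ℝ)| ≤ |(KK b : ℝ) * A i k| + 1 / 2 := by
          have h1 := abs_sub_round ((KK b : ℝ) * A i k)
          have h2 : |(Z i k : ℝ)| ≤ |(KK b : ℝ) * A i k| + |(KK b : ℝ) * A i k - Z i k| := by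
            have h3 := abs_sub ((KK b : ℝ) * A i k) ((KK b : ℝ) * A i k - Z i k)
            rw [sub_sub_cancel] at h3
            exact h3
          exact h2.trans (add_le_add_right h1 _)
        have e2 : |(KK b : ℝ) * A i k| ≤ KK b * (b * (2 * (b.factorial * 2 ^ b))) * ρ := by
          rw [abs_mul, abs_of_pos hK, mul_assoc (KK b : ℝ)]
          apply mul_le_mul_of_nonneg_left _ hK.le
          refine (hAb i k).trans (le_of_eq ?_)
          ring
        rw [add_mul]
        linarith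
      have h3 : ∑ i, ∑ k, Real.logb 2 (1 + |(Z i k : ℝ)|) ≤ (b : ℝ) ^ 2 * (L + Real.logb 2 ρ) := by
        refine (Finset.sum_le_sum fun i _ => Finset.sum_le_sum fun k _ => hz i k).trans (le_of_eq ?_)
        simp only [Finset.sum_const, Finset.card_univ, Fintype.card_fin, nsmul_eq_mul]
        ring
      show 1 + ∑ i, ∑ k, Real.logb 2 (1 + |(Z i k : ℝ)|) ≤ CC b * Real.logb 2 ρ
      rw [CC, ← hL]
      have h4 : (b : ℝ) ^ 2 * (L + Real.logb 2 ρ) ≤ (b : ℝ) ^ 2 * ((L + 1) * Real.logb 2 ρ) := by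
        apply mul_le_mul_of_nonneg_left _ (by positivity)
        nlinarith
      nlinarith

end Pool.Agent.Helper26.VW
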