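import Pool.Agent.Helper26.VW.Fr
import Pool.Agent.Helper61.GL.Cal

/-!
# Coded frames for increasing families of vectors: existence and entropy
-/

set_option autoImplicit false

namespace Pool.Agent.Helper26.VW

open Matrix Finset Pool.Agent.Helper69.RK Pool.Agent.Helper61.GL

variable {b : ℕ}

/-- `W` is a nearly maximal frame of `Q` and `B` is close to it -/
structure Frm (Q : Set (Fin b → ℝ)) (W B : Mt b) : Prop where
  co : Cols W Q
  dt : W.det ≠ 0
  mx : ∀ X, Cols X Q → |X.det| ≤ 4 * |W.det|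
  ap : Apx W B

/-- CODED FRAMES of an increasing family -/
theorem code {δ Δ : ℝ} (hδ : 0 < δ) (Q : ℕ → Set (Fin b → ℝ)) (hm : Monotone Q)
    (hQ : ∀ N, Bod δ Δ (Q N)) :
    ∃ (c : ℕ → Cd b) (W : ℕ → Mt b), (∀ N, Frm (Q N) (W N) (dec δ c (N + 1))) ∧
      ∀ n, ∑ N ∈ range n, cst (c N) ≤ CC b * (Real.logb 2 Δ - b * Real.logb 2 δ) := by
  have S : ∀ N (p : Mt b × Mt b), ∃ r : Cd b × Mt b, (Cols p.1 (Q N) ∧ p.1.det ≠ 0 ∧ Apx p.1 p.2) →
      (Cols r.2 (Q N) ∧ r.2.det ≠ 0 ∧ (∀ X, Cols X (Q N) → |X.det| ≤ 4 * |r.2.det|) ∧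
        Apx r.2 (upd p.2 r.1) ∧ cst r.1 ≤ CC b * (Real.logb 2 |r.2.det| - Real.logb 2 |p.1.det|)) := by
    intro N p
    by_cases h : Cols p.1 (Q N) ∧ p.1.det ≠ 0 ∧ Apx p.1 p.2
    · obtain ⟨c, W', h1, h2, h3, h4, h5⟩ := step hδ (hQ N) p.1 p.2 h.1 h.2.1 h.2.2
      exact ⟨(c, W'), fun _ => ⟨h1, h2, h3, h4, h5⟩⟩
    · exact ⟨(none, 0), fun h' => absurd h' h⟩
  choose r hr using S
  set st : ℕ → Mt b × Mt b := fun N => Nat.rec (δ • 1, δ • 1) (fun N p => ((r N p).2, upd p.2 (r N p).1)) N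
    with hst
  have st0 : st 0 = (δ • 1, δ • 1) := rfl
  have sts : ∀ N, st (N + 1) = ((r N (st N)).2, upd (st N).2 (r N (st N)).1) := fun N => rfl
  have inv : ∀ N, Cols (st N).1 (Q N) ∧ (st N).1.det ≠ 0 ∧ Apx (st N).1 (st N).2 := by
    intro N
    induction N with
    | zero =>
      rw [st0]
      exact ⟨(hQ 0).diag, by rw [det_diag]; exact (pow_pos hδ b).ne', Apx.refl _⟩
    | succ N ih =>
      obtain ⟨h1, h2, h3, h4, h5⟩ := hr N (st N) ih
      rw [sts]
      exact ⟨fun k => hm (Nat.le_succ N) (h1 k), h2, h4⟩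
  set c : ℕ → Cd b := fun N => (r N (st N)).1 with hc
  have hdec : ∀ N, dec δ c N = (st N).2 := by
    intro N
    induction N with
    | zero => rfl
    | succ N ih =>
      rw [sts]
      show upd (dec δ c N) (c N) = _
      rw [ih]
  refine ⟨c, fun N => (st (N + 1)).1, fun N => ?_, fun n => ?_⟩
  · obtain ⟨h1, h2, h3, h4, h5⟩ := hr N (st N) (inv N)
    rw [hdec, sts]
    exact ⟨h1, h2, h3, h4⟩
  · have h1 : ∀ n, ∑ N ∈ range n, cst (c N) ≤
        CC b * (Real.logb 2 |(st n).1.det| - Real.logb 2 |(st 0).1.det|) := by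
      intro n
      induction n with
      | zero => simp
      | succ n ih =>
        rw [Finset.sum_range_succ]
        obtain ⟨_, _, _, _, h5⟩ := hr n (st n) (inv n)
        rw [sts n]
        have : cst (c n) ≤ CC b * (Real.logb 2 |(r n (st n)).2.det| - Real.logb 2 |(st n).1.det|) := h5
        show _ ≤ CC b * (Real.logb 2 |(r n (st n)).2.det| - _)
        nlinarith
    refine (h1 n).trans ?_
    have hCC : 0 ≤ CC b := by
      rw [CC]
      have : 0 ≤ Real.logb 2 (2 + KK b * (b * (2 * (b.factorial * 2 ^ b)))) := by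
        apply Real.logb_nonneg (by norm_num)
        have : (0 : ℝ) ≤ KK b * (b * (2 * (b.factorial * 2 ^ b))) := by positivity
        linarith
      positivity
    apply mul_le_mul_of_nonneg_left _ hCC
    rw [st0]
    show Real.logb 2 |(st n).1.det| - Real.logb 2 |(δ • (1 : Mt b)).det| ≤ _
    rw [det_diag, abs_of_pos (pow_pos hδ b), Real.logb_pow]
    have h2 : Real.logb 2 |(st n).1.det| ≤ Real.logb 2 Δ :=
      Real.logb_le_logb_of_le (by norm_num) (abs_pos.2 (inv n).2.1) ((hQ n).bd _ (inv n).1)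
    linarith

namespace Frm

variable {Q : Set (Fin b → ℝ)} {W B : Mt b}

theorem detB (h : Frm Q W B) : B.det ≠ 0 := by
  obtain ⟨E, rfl, hE⟩ := h.ap
  rw [Matrix.det_mul]
  exact mul_ne_zero h.dt (pert_det E hE)

/-- members of `Q` in the coded frame -/
theorem mem (h : Frm Q W B) (u : Fin b → ℝ) (hu : u ∈ Q) (k : Fin b) : |(B⁻¹ *ᵥ u) k| ≤ 8 := by
  obtain ⟨E, rfl, hE⟩ := h.ap
  have h1 : (1 + E) *ᵥ ((W * (1 + E))⁻¹ *ᵥ u) = W⁻¹ *ᵥ u := by
    rw [Matrix.mul_inv_rev, ← Matrix.mulVec_mulVec, Matrix.mulVec_mulVec, 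
      Matrix.mul_nonsing_inv _ (isUnit_iff_ne_zero.2 (pert_det E hE)), Matrix.one_mulVec]
  have := pert_vec E hE _ _ 4 h1 (fun j => coef_max W h.dt Q h.co 4 h.mx u hu j) k
  linarith

/-- the coded frame and the frame of members -/
theorem two (h : Frm Q W B) : Bdd 2 (W⁻¹ * B) ∧ Bdd 2 (B⁻¹ * W) := by
  obtain ⟨E, rfl, hE⟩ := h.ap
  have hu := isUnit_iff_ne_zero.2 h.dt
  constructor
  · rw [← Matrix.mul_assoc, Matrix.nonsing_inv_mul _ hu, Matrix.one_mul]
    exact pert_bd E hE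
  · rw [Matrix.mul_inv_rev, Matrix.mul_assoc, Matrix.nonsing_inv_mul _ hu, Matrix.mul_one]
    exact pert_inv E hE

end Frm

/-! ### entropy of the codes -/

/-- the law of one integer -/
noncomputable def w1 (z : ℤ) : ℝ := 1 / (4 * (1 + |(z : ℝ)|) ^ 2)

theorem w1_pos (z : ℤ) : 0 < w1 z := by
  rw [w1]
  have := abs_nonneg (z : ℝ)
  positivity

theorem sum_sq (n : ℕ) : ∑ k ∈ range (n + 1), (1 : ℝ) / (1 + (k : ℝ)) ^ 2 ≤ 2 - 1 / (n + 1 : ℝ) := by
  induction n with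
  | zero => norm_num
  | succ n ih =>
    rw [Finset.sum_range_succ]
    have h0 : (0 : ℝ) ≤ n := Nat.cast_nonneg n
    have h1 : (1 : ℝ) / (1 + ((n + 1 : ℕ) : ℝ)) ^ 2 ≤ 1 / (n + 1 : ℝ) - 1 / (((n + 1 : ℕ) : ℝ) + 1) := by
      push_cast
      rw [div_sub_div _ _ (by positivity) (by positivity), div_le_div_iff₀ (by positivity) (by positivity)]
      nlinarith
    linarith

theorem sum_sq' (T : Finset ℕ) : ∑ k ∈ T, (1 : ℝ) / (1 + (k : ℝ)) ^ 2 ≤ 2 := by
  have h1 : T ⊆ range (T.sup id + 1) := by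
    intro k hk
    rw [Finset.mem_range]
    exact Nat.lt_succ_of_le (Finset.le_sup (f := id) hk)
  refine (Finset.sum_le_sum_of_subset_of_nonneg h1 fun k _ _ => by positivity).trans ?_
  have h2 := sum_sq (T.sup id)
  have h3 : (0 : ℝ) ≤ 1 / ((T.sup id : ℕ) + 1 : ℝ) := by positivity
  linarith

theorem w1_half (S : Finset ℤ) (h : ∀ z ∈ S, ∀ z' ∈ S, z.natAbs = z'.natAbs → z = z') :
    ∑ z ∈ S, w1 z ≤ 1 / 2 := by
  have h1 : ∀ z ∈ S, w1 z = 1 / 4 * (1 / (1 + ((z.natAbs : ℕ) : ℝ)) ^ 2) := by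
    intro z _
    rw [w1]
    have : ((z.natAbs : ℕ) : ℝ) = |(z : ℝ)| := by
      rw [Nat.cast_natAbs, Int.cast_abs]
    rw [this]
    have := abs_nonneg (z : ℝ)
    field_simp
  rw [Finset.sum_congr rfl h1, ← Finset.mul_sum]
  have h2 : ∑ z ∈ S, (1 : ℝ) / (1 + ((z.natAbs : ℕ) : ℝ)) ^ 2
      = ∑ k ∈ S.image Int.natAbs, (1 : ℝ) / (1 + (k : ℝ)) ^ 2 := by
    rw [Finset.sum_image]
    intro z hz z' hz' e
    exact h z hz z' hz' e
  rw [h2]
  have := sum_sq' (S.image Int.natAbs)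
  linarith

theorem w1_sum (S : Finset ℤ) : ∑ z ∈ S, w1 z ≤ 1 := by
  rw [← Finset.sum_filter_add_sum_filter_not S (fun z => 0 ≤ z)]
  have h1 := w1_half (S.filter (fun z => 0 ≤ z)) (by
    intro z hz z' hz' e
    rw [Finset.mem_filter] at hz hz'
    omega)
  have h2 := w1_half (S.filter (fun z => ¬ 0 ≤ z)) (by
    intro z hz z' hz' e
    rw [Finset.mem_filter] at hz hz'
    omega)
  linarith

/-- the law of one code -/
noncomputable def wc (x : ℝ) : Cd b → ℝ
  | none => 1 - x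
  | some Z => x * ∏ i, ∏ k, w1 (Z i k)

theorem wc_pos {x : ℝ} (h0 : 0 < x) (h1 : x < 1) (c : Cd b) : 0 < wc x c := by
  cases c with
  | none =>
    show 0 < 1 - x
    linarith
  | some Z =>
    show 0 < x * ∏ i, ∏ k, w1 (Z i k)
    exact mul_pos h0 (Finset.prod_pos fun i _ => Finset.prod_pos fun k _ => w1_pos _)

theorem prod_sum_le {ι : Type} [Fintype ι] (S : Finset (ι → ℤ)) : ∑ Z ∈ S, ∏ i, w1 (Z i) ≤ 1 := by
  classical
  set t : ι → Finset ℤ := fun i => S.image (fun Z => Z i) with ht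
  have h1 : S ⊆ Fintype.piFinset t := by
    intro Z hZ
    rw [Fintype.mem_piFinset]
    intro i
    rw [ht]
    exact Finset.mem_image_of_mem (fun Z => Z i) hZ
  refine (Finset.sum_le_sum_of_subset_of_nonneg h1 fun Z _ _ =>
    Finset.prod_nonneg fun i _ => (w1_pos _).le).trans ?_
  rw [← Finset.prod_univ_sum t (fun _ z => w1 z)]
  exact Finset.prod_le_one (fun i _ => Finset.sum_nonneg fun z _ => (w1_pos z).le) (fun i _ => w1_sum _)

theorem wc_sum {x : ℝ} (h0 : 0 < x) (h1 : x < 1) (S : Finset (Cd b)) : ∑ c ∈ S, wc x c ≤ 1 := by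
  classical
  set T : Finset (Fin b × Fin b → ℤ) := S.eraseNone.image (fun Z p => Z p.1 p.2) with hT
  have e1 : ∑ Z ∈ S.eraseNone, wc x (some Z) = x * ∑ Z ∈ T, ∏ p, w1 (Z p) := by
    rw [hT, Finset.sum_image, Finset.mul_sum]
    · refine Finset.sum_congr rfl fun Z _ => ?_
      show x * ∏ i, ∏ k, w1 (Z i k) = _
      rw [Fintype.prod_prod_type]
    · intro Z _ Z' _ e
      funext i k
      exact congrFun e (i, k)
  have e2 : ∑ c ∈ S, wc x c ≤ wc x (none : Cd b) + ∑ Z ∈ S.eraseNone, wc x (some Z) := by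
    have h3 : S ⊆ insertNone S.eraseNone := by
      intro c hc
      cases c with
      | none => exact Finset.none_mem_insertNone
      | some Z => exact Finset.some_mem_insertNone.2 (Finset.mem_eraseNone.2 hc)
    refine (Finset.sum_le_sum_of_subset_of_nonneg h3 fun c _ _ => (wc_pos h0 h1 c).le).trans ?_
    rw [Finset.sum_insertNone]
  rw [e1] at e2
  have h4 := prod_sum_le T
  have h5 : wc x (none : Cd b) = 1 - x := rfl
  rw [h5] at e2
  nlinarith

theorem wc_log {x : ℝ} (h0 : 0 < x) (h1 : x < 1) (c : Cd b) :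
    - Real.logb 2 (wc x c) ≤ - Real.logb 2 (1 - x) + (- Real.logb 2 x + 2 * (b : ℝ) ^ 2 + 2) * cst c := by
  cases c with
  | none =>
    show - Real.logb 2 (1 - x) ≤ _ + _ * 0
    rw [mul_zero, add_zero]
  | some Z =>
    have hx : 0 ≤ - Real.logb 2 (1 - x) := by
      have := Real.logb_nonpos (b := 2) (by norm_num) (by linarith : 0 ≤ 1 - x) (by linarith)
      linarith
    have hx' : 0 ≤ - Real.logb 2 x := by
      have := Real.logb_nonpos (b := 2) (by norm_num) h0.le h1.le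
      linarith
    have e1 : Real.logb 2 (∏ i, ∏ k, w1 (Z i k)) = ∑ i, ∑ k, Real.logb 2 (w1 (Z i k)) := by
      rw [Real.logb_prod _ _ fun i _ => (Finset.prod_pos fun k _ => w1_pos _).ne']
      refine Finset.sum_congr rfl fun i _ => ?_
      rw [Real.logb_prod _ _ fun k _ => (w1_pos _).ne']
    have e2 : ∀ z : ℤ, Real.logb 2 (w1 z) = - (2 + 2 * Real.logb 2 (1 + |(z : ℝ)|)) := by
      intro z
      have h3 : 0 < 1 + |(z : ℝ)| := by
        have := abs_nonneg (z : ℝ)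
        linarith
      rw [w1, one_div, Real.logb_inv, Real.logb_mul (by norm_num) (by positivity), Real.logb_pow]
      have : Real.logb 2 4 = 2 := by
        rw [show (4 : ℝ) = 2 ^ (2 : ℝ) by norm_num]
        exact Real.logb_rpow (by norm_num) (by norm_num)
      rw [this]
      push_cast
      ring
    have h3 : (0 : ℝ) ≤ ∑ i, ∑ k, Real.logb 2 (1 + |(Z i k : ℝ)|) :=
      Finset.sum_nonneg fun i _ => Finset.sum_nonneg fun k _ =>
        Real.logb_nonneg (by norm_num) (by have := abs_nonneg (Z i k : ℝ); linarith)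
    show - Real.logb 2 (x * ∏ i, ∏ k, w1 (Z i k)) ≤ _ + _ * (1 + ∑ i, ∑ k, Real.logb 2 (1 + |(Z i k : ℝ)|))
    rw [Real.logb_mul h0.ne' (Finset.prod_pos fun i _ => Finset.prod_pos fun k _ => w1_pos _).ne', e1]
    simp only [e2]
    simp only [Finset.sum_neg_distrib, Finset.sum_add_distrib, Finset.sum_const, Finset.card_univ,
      Fintype.card_fin, nsmul_eq_mul, ← Finset.mul_sum]
    set s := ∑ i, ∑ k, Real.logb 2 (1 + |(Z i k : ℝ)|)
    nlinarith

/-- ENTROPY of a random sequence of codes of small total cost -/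
theorem code_ent {Ω γ : Type} [Fintype Ω] (μ : Ω → ℝ) (hμ : ∀ ω, 0 ≤ μ ω) (c : Ω → ℕ → Cd b) (G : Ω → γ)
    (n : ℕ) (V x : ℝ) (h0 : 0 < x) (h1 : x < 1)
    (hV : ∀ ω, μ ω ≠ 0 → ∑ N ∈ range n, cst (c ω N) ≤ V) :
    CH μ (fun ω => fun N : Fin n => c ω N) G ≤
      (n * (- Real.logb 2 (1 - x)) + (- Real.logb 2 x + 2 * (b : ℝ) ^ 2 + 2) * V) * mass μ := by
  have hx' : 0 ≤ - Real.logb 2 x := by
    have := Real.logb_nonpos (b := 2) (by norm_num) h0.le h1.le
    linarith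
  have h2 := ch_pi_le μ hμ (fun (N : Fin n) ω => c ω N) G (fun _ (_ : γ) => ())
  have h3 : ∀ N : Fin n, CH μ (fun ω => c ω N) (hg (fun _ (_ : γ) => ()) G N) ≤
      - ∑ ω, μ ω * Real.logb 2 (wc x (c ω N)) := fun N =>
    ch_gibbs μ hμ (fun ω => c ω N) (hg (fun _ (_ : γ) => ()) G N) (fun _ c => wc x c)
      (fun ω _ => wc_pos h0 h1 _) (fun _ c => (wc_pos h0 h1 c).le) (fun _ S => wc_sum h0 h1 S)
  refine h2.trans ((Finset.sum_le_sum fun N _ => h3 N).trans ?_)
  simp only [← Finset.sum_neg_distrib, ← mul_neg]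
  rw [Finset.sum_comm, mass, Finset.mul_sum]
  refine Finset.sum_le_sum fun ω _ => ?_
  rw [← Finset.mul_sum, mul_comm]
  by_cases h4 : μ ω = 0
  · rw [h4, mul_zero, mul_zero]
  apply mul_le_mul_of_nonneg_right _ (hμ ω)
  refine (Finset.sum_le_sum (s := (Finset.univ : Finset (Fin n))) fun N _ =>
    wc_log h0 h1 (c ω (N : ℕ))).trans ?_
  rw [Finset.sum_add_distrib, ← Finset.mul_sum, Finset.sum_const, Finset.card_univ, Fintype.card_fin,
    nsmul_eq_mul]
  have h5 : ∑ N : Fin n, cst (c ω N) ≤ V := by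
    rw [Fin.sum_univ_eq_sum_range (fun N => cst (c ω N)) n]
    exact hV ω h4
  have h6 : (0 : ℝ) ≤ - Real.logb 2 x + 2 * (b : ℝ) ^ 2 + 2 := by positivity
  have := mul_le_mul_of_nonneg_left h5 h6
  linarith

end Pool.Agent.Helper26.VW
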