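import Pool.Agent.Helper26.VW.Tel

/-!
# Hulls of bodies over all levels of `[x, u]`, partners, and telescoping (16d, section 4, without
differential entropy)
-/

set_option autoImplicit false

namespace Pool.Agent.Helper26.VW

open Matrix Finset Pool.Agent.Helper69.RK Pool.Agent.Helper61.GL

variable {r : ℕ} {Ω γ : Type} [Fintype Ω]

/-- nearly maximal frames of bounded sets -/
theorem near2 {Q : Set (Fin r → ℝ)} {Δ : ℝ} (W0 : Mt r) (h0 : Cols W0 Q) (hd : W0.det ≠ 0)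
    (hb : ∀ W : Mt r, Cols W Q → |W.det| ≤ Δ) :
    ∃ W : Mt r, Cols W Q ∧ W.det ≠ 0 ∧ |W0.det| ≤ 2 * |W.det| ∧ ∀ X, Cols X Q → |X.det| ≤ 2 * |W.det| := by
  set S : Set ℝ := {d | ∃ W : Mt r, Cols W Q ∧ d = |W.det|} with hS
  have h0' : |W0.det| ∈ S := ⟨_, h0, rfl⟩
  have hbd : BddAbove S := ⟨Δ, by
    rintro d ⟨W, hW, rfl⟩
    exact hb W hW⟩
  have h1 : |W0.det| ≤ sSup S := le_csSup hbd h0'
  have h2 : 0 < |W0.det| := abs_pos.2 hd
  obtain ⟨d, ⟨W, hW, rfl⟩, hd'⟩ := exists_lt_of_lt_csSup (s := S) (b := sSup S / 2) ⟨_, h0'⟩ (by linarith)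
  refine ⟨W, hW, ?_, by linarith, fun X hX => ?_⟩
  · intro h3
    rw [h3, abs_zero] at hd'
    linarith
  · have := le_csSup hbd ⟨X, hX, rfl⟩
    linarith

/-- the window of the `i`-th coordinate given all the others -/
noncomputable def w1c (μ : Ω → ℝ) (z : Ω → Fin r → ℝ) (G : Ω → γ) (M : Mt r) (N D : ℕ) (i : Fin r) : ℝ :=
  CH μ (fun ω => pf M (N + D) (z ω) i) (fun ω => (pf M N (z ω) i,
    ((fun j : {j // j ≠ i} => pf M (N + D) (z ω) j), G ω)))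

/-- all coordinates together -/
theorem win_sum (μ : Ω → ℝ) (hμ : ∀ ω, 0 ≤ μ ω) (z : Ω → Fin r → ℝ) (G : Ω → γ) (M : Mt r) (N D : ℕ) :
    ∑ i, w1c μ z G M N D i ≤
      CH μ (fun ω => pf M (N + D) (z ω)) (fun ω => (pf M N (z ω), G ω)) := by
  have h1 := ch_pi_ge μ hμ (fun (i : Fin r) ω => pf M (N + D) (z ω) i) (fun ω => (pf M N (z ω), G ω))
  refine le_trans (Finset.sum_le_sum fun i _ => ?_) h1
  apply ch_cond μ hμ
  intro ω ω' _ _ e
  rw [Prod.mk.injEq, Prod.mk.injEq] at e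
  obtain ⟨e1, e2, e3⟩ := e
  refine Prod.ext e2 (Prod.ext (funext fun j => ?_) e3)
  by_cases hj : j = i
  · rw [hj]
    exact e1
  · have := congrFun e2 ⟨j, hj⟩
    exact fl_ref (Nat.le_add_right N D) this

/-- the hull of the bodies of the levels of `[x, u]` -/
def Hl (Bd : ℕ → Set (Fin r → ℝ)) (x u : ℕ) : Set (Fin r → ℝ) := {v | ∃ m, x ≤ m ∧ m ≤ u ∧ v ∈ Bd m}

theorem Hl_mono (Bd : ℕ → Set (Fin r → ℝ)) {x x' u u' : ℕ} (h : x' ≤ x) (h' : u ≤ u') :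
    Hl Bd x u ⊆ Hl Bd x' u' := by
  rintro v ⟨m, h1, h2, h3⟩
  exact ⟨m, h.trans h1, h2.trans h', h3⟩

theorem Cols.mono {W : Mt r} {Q Q' : Set (Fin r → ℝ)} (h : Cols W Q) (hQ : Q ⊆ Q') : Cols W Q' :=
  fun k => hQ (h k)

/-- the best frame among finitely many vectors -/
theorem best {ι : Type} [Finite ι] (c : ι → Fin r → ℝ) (s0 : Fin r → ι) :
    ∃ s : Fin r → ι, (∀ s' : Fin r → ι, |(Matrix.of fun i k => c (s' k) i).det| ≤
      |(Matrix.of fun i k => c (s k) i).det|) := by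
  have : Nonempty (Fin r → ι) := ⟨s0⟩
  obtain ⟨s, hs⟩ := Finite.exists_max (fun s : Fin r → ι => |(Matrix.of fun i k => c (s k) i).det|)
  exact ⟨s, hs⟩

/-- the frame of the hull of `[x, u]`: its members are `F1 x` and `F2 u` -/
theorem frames (Bd : ℕ → Set (Fin r → ℝ)) (Δ : ℝ) (X0 X1 U0 U1 : ℕ) (h01 : X0 ≤ X1) (hXU : X1 ≤ U0)
    (hU : U0 ≤ U1) (hb : ∀ W : Mt r, Cols W (Hl Bd X0 U1) → |W.det| ≤ Δ)
    (W0 : Mt r) (hW0 : Cols W0 (Hl Bd X1 U0)) (hd : W0.det ≠ 0) :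
    ∃ (F1 F2 : ℕ → Fin r → Fin r → ℝ) (m1 m2 : ℕ → Fin r → ℕ) (M : ℕ → ℕ → Mt r),
      (∀ x, X0 ≤ x → x ≤ X1 → ∀ k, F1 x k ∈ Bd (m1 x k) ∧ x ≤ m1 x k ∧ m1 x k ≤ U0) ∧
      (∀ u, U0 ≤ u → u ≤ U1 → ∀ k, F2 u k ∈ Bd (m2 u k) ∧ X1 ≤ m2 u k ∧ m2 u k ≤ u) ∧
      ∀ x u, X0 ≤ x → x ≤ X1 → U0 ≤ u → u ≤ U1 →
        (∀ i, (∃ k, (fun j => M x u j i) = F1 x k) ∨ ∃ k, (fun j => M x u j i) = F2 u k) ∧
        (M x u).det ≠ 0 ∧ |W0.det| ≤ 2 * |(M x u).det| ∧ Cols (M x u) (Hl Bd x u) ∧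
        (∀ v ∈ Hl Bd x u, ∀ k, |((M x u)⁻¹ *ᵥ v) k| ≤ 2 * r) := by
  classical
  have S1 : ∀ x, X0 ≤ x → x ≤ X1 → ∃ W : Mt r, Cols W (Hl Bd x U0) ∧ W.det ≠ 0 ∧ |W0.det| ≤ 2 * |W.det| ∧
      ∀ X, Cols X (Hl Bd x U0) → |X.det| ≤ 2 * |W.det| := fun x h1 h2 =>
    near2 W0 (hW0.mono (Hl_mono Bd h2 le_rfl)) hd (fun W hW => hb W (hW.mono (Hl_mono Bd h1 hU)))
  have S2 : ∀ u, U0 ≤ u → u ≤ U1 → ∃ W : Mt r, Cols W (Hl Bd X1 u) ∧ W.det ≠ 0 ∧ |W0.det| ≤ 2 * |W.det| ∧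
      ∀ X, Cols X (Hl Bd X1 u) → |X.det| ≤ 2 * |W.det| := fun u h1 h2 =>
    near2 W0 (hW0.mono (Hl_mono Bd le_rfl h1)) hd (fun W hW => hb W (hW.mono (Hl_mono Bd h01 h2)))
  set A1 : ℕ → Mt r := fun x => if h : X0 ≤ x ∧ x ≤ X1 then (S1 x h.1 h.2).choose else 0 with hA1
  set A2 : ℕ → Mt r := fun u => if h : U0 ≤ u ∧ u ≤ U1 then (S2 u h.1 h.2).choose else 0 with hA2
  have HA1 : ∀ x, X0 ≤ x → x ≤ X1 → Cols (A1 x) (Hl Bd x U0) ∧ (A1 x).det ≠ 0 ∧
      |W0.det| ≤ 2 * |(A1 x).det| ∧ ∀ X, Cols X (Hl Bd x U0) → |X.det| ≤ 2 * |(A1 x).det| := by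
    intro x h1 h2
    have e : A1 x = (S1 x h1 h2).choose := by
      rw [hA1]
      exact dif_pos ⟨h1, h2⟩
    rw [e]
    exact (S1 x h1 h2).choose_spec
  have HA2 : ∀ u, U0 ≤ u → u ≤ U1 → Cols (A2 u) (Hl Bd X1 u) ∧ (A2 u).det ≠ 0 ∧
      |W0.det| ≤ 2 * |(A2 u).det| ∧ ∀ X, Cols X (Hl Bd X1 u) → |X.det| ≤ 2 * |(A2 u).det| := by
    intro u h1 h2
    have e : A2 u = (S2 u h1 h2).choose := by
      rw [hA2]
      exact dif_pos ⟨h1, h2⟩
    rw [e]
    exact (S2 u h1 h2).choose_spec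
  have L1 : ∀ x (k : Fin r), ∃ m, (X0 ≤ x → x ≤ X1 → ((fun i => A1 x i k) ∈ Bd m ∧ x ≤ m ∧ m ≤ U0)) := by
    intro x k
    by_cases h : X0 ≤ x ∧ x ≤ X1
    · obtain ⟨m, h1, h2, h3⟩ := (HA1 x h.1 h.2).1 k
      exact ⟨m, fun _ _ => ⟨h3, h1, h2⟩⟩
    · exact ⟨0, fun h1 h2 => absurd ⟨h1, h2⟩ h⟩
  have L2 : ∀ u (k : Fin r), ∃ m, (U0 ≤ u → u ≤ U1 → ((fun i => A2 u i k) ∈ Bd m ∧ X1 ≤ m ∧ m ≤ u)) := by
    intro u k
    by_cases h : U0 ≤ u ∧ u ≤ U1
    · obtain ⟨m, h1, h2, h3⟩ := (HA2 u h.1 h.2).1 k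
      exact ⟨m, fun _ _ => ⟨h3, h1, h2⟩⟩
    · exact ⟨0, fun h1 h2 => absurd ⟨h1, h2⟩ h⟩
  choose m1 hm1 using L1
  choose m2 hm2 using L2
  set c : ℕ → ℕ → (Fin r ⊕ Fin r) → Fin r → ℝ := fun x u => Sum.elim (fun k i => A1 x i k)
    (fun k i => A2 u i k) with hc
  have B : ∀ x u, ∃ s : Fin r → Fin r ⊕ Fin r, ∀ s' : Fin r → Fin r ⊕ Fin r,
      |(Matrix.of fun i k => c x u (s' k) i).det| ≤ |(Matrix.of fun i k => c x u (s k) i).det| := fun x u =>
    best (c x u) (fun k => Sum.inl k)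
  choose s hs using B
  refine ⟨fun x k i => A1 x i k, fun u k i => A2 u i k, m1, m2,
    fun x u => Matrix.of fun i k => c x u (s x u k) i, fun x h1 h2 k => hm1 x k h1 h2,
    fun u h1 h2 k => hm2 u k h1 h2, fun x u h1 h2 h3 h4 => ?_⟩
  set M : Mt r := Matrix.of fun i k => c x u (s x u k) i with hM
  have d1 : |(A1 x).det| ≤ |M.det| := hs x u (fun k => Sum.inl k)
  have d0 : 0 < |(A1 x).det| := abs_pos.2 (HA1 x h1 h2).2.1
  have dM : M.det ≠ 0 := abs_pos.1 (lt_of_lt_of_le d0 d1)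
  -- the candidates in the frame `M`
  set Q : Set (Fin r → ℝ) := Set.range (c x u) with hQ
  have cM : Cols M Q := fun k => ⟨s x u k, rfl⟩
  have mx : ∀ X, Cols X Q → |X.det| ≤ 1 * |M.det| := by
    intro X hX
    choose s' hs' using hX
    have : X = Matrix.of fun i k => c x u (s' k) i := by
      funext i k
      exact (congrFun (hs' k) i).symm
    rw [this, one_mul]
    exact hs x u s'
  have K1 : Bdd 1 (M⁻¹ * A1 x) := coef_mat M dM Q cM 1 mx (A1 x) (fun k => ⟨Sum.inl k, rfl⟩)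
  have K2 : Bdd 1 (M⁻¹ * A2 u) := coef_mat M dM Q cM 1 mx (A2 u) (fun k => ⟨Sum.inr k, rfl⟩)
  refine ⟨fun i => ?_, dM, ?_, fun k => ?_, ?_⟩
  · rcases hsi : s x u i with k | k
    · left
      refine ⟨k, funext fun j => ?_⟩
      show c x u (s x u i) j = _
      rw [hsi]
      rfl
    · right
      refine ⟨k, funext fun j => ?_⟩
      show c x u (s x u i) j = _
      rw [hsi]
      rfl
  · have := (HA1 x h1 h2).2.2.1
    linarith
  · rcases hsi : s x u k with k' | k'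
    · have e : (fun i => M i k) = fun i => A1 x i k' := by
        funext j
        show c x u (s x u k) j = _
        rw [hsi]
        rfl
      rw [e]
      exact Hl_mono Bd le_rfl h3 ((HA1 x h1 h2).1 k')
    · have e : (fun i => M i k) = fun i => A2 u i k' := by
        funext j
        show c x u (s x u k) j = _
        rw [hsi]
        rfl
      rw [e]
      exact Hl_mono Bd h2 le_rfl ((HA2 u h3 h4).1 k')
  · have key : ∀ (A : Mt r) (Q' : Set (Fin r → ℝ)), Cols A Q' → A.det ≠ 0 →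
        (∀ X, Cols X Q' → |X.det| ≤ 2 * |A.det|) → Bdd 1 (M⁻¹ * A) → ∀ v ∈ Q', ∀ k,
        |(M⁻¹ *ᵥ v) k| ≤ 2 * r := by
      intro A Q' a1 a2 a3 a4 v hv k
      have e : M⁻¹ *ᵥ v = (M⁻¹ * A) *ᵥ (A⁻¹ *ᵥ v) := by
        rw [Matrix.mulVec_mulVec, Matrix.mul_assoc, Matrix.mul_nonsing_inv _ (isUnit_iff_ne_zero.2 a2),
          Matrix.mul_one]
      rw [e]
      have h := mulVec_le (x := 1) (y := 2) zero_le_one a4 (coef_max A a2 Q' a1 2 a3 v hv) k
      linarith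
    rintro v ⟨m, g1, g2, g3⟩
    by_cases hmU : m ≤ U0
    · exact key (A1 x) _ (HA1 x h1 h2).1 (HA1 x h1 h2).2.1 (HA1 x h1 h2).2.2.2 K1 v ⟨m, g1, hmU, g3⟩
    · exact key (A2 u) _ (HA2 u h3 h4).1 (HA2 u h3 h4).2.1 (HA2 u h3 h4).2.2.2 K2 v
        ⟨m, hXU.trans (not_le.1 hmU).le, g2, g3⟩

/-- averaging -/
theorem average (A B : Finset ℕ) (P : ℕ → ℕ → Prop) [∀ x u, Decidable (P x u)] (E : ℕ) (hA : A.Nonempty)
    (h : ∀ u ∈ B, (A.filter (fun x => P x u)).card ≤ E) :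
    ∃ x ∈ A, A.card * (B.filter (fun u => P x u)).card ≤ E * B.card := by
  by_contra hc
  push Not at hc
  have h1 : ∑ x ∈ A, (B.filter (fun u => P x u)).card = ∑ u ∈ B, (A.filter (fun x => P x u)).card := by
    simp only [Finset.card_filter]
    exact Finset.sum_comm
  have h2 : ∑ u ∈ B, (A.filter (fun x => P x u)).card ≤ E * B.card := by
    refine (Finset.sum_le_sum h).trans (le_of_eq ?_)
    rw [Finset.sum_const, smul_eq_mul, mul_comm]
  have h3 : ∑ x ∈ A, (E * B.card) < ∑ x ∈ A, A.card * (B.filter (fun u => P x u)).card :=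
    Finset.sum_lt_sum_of_nonempty hA hc
  rw [Finset.sum_const, smul_eq_mul, ← Finset.mul_sum, h1] at h3
  have h4 := Nat.mul_le_mul_left A.card h2
  omega

/-- bad partners -/
theorem partners (B : Finset ℕ) (f : ℕ → Fin r → ℕ) (J : Fin r → Finset ℕ) (E : ℕ)
    (hf : ∀ k, ∀ u ∈ B, ∀ u' ∈ B, f u k = f u' k → u = u') (hJ : ∀ k, (J k).card ≤ E)
    (P : ℕ → Prop) [DecidablePred P] (hP : ∀ u ∈ B, P u → ∃ k, f u k ∈ J k) :
    (B.filter P).card ≤ r * E := by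
  classical
  have h1 : B.filter P ⊆ univ.biUnion fun k : Fin r => B.filter fun u => f u k ∈ J k := by
    intro u hu
    rw [Finset.mem_filter] at hu
    obtain ⟨k, hk⟩ := hP u hu.1 hu.2
    rw [Finset.mem_biUnion]
    exact ⟨k, Finset.mem_univ k, Finset.mem_filter.2 ⟨hu.1, hk⟩⟩
  refine (Finset.card_le_card h1).trans (Finset.card_biUnion_le.trans ?_)
  refine (Finset.sum_le_sum (g := fun _ => E) fun k _ => ?_).trans ?_
  · refine le_trans ?_ (hJ k)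
    apply Finset.card_le_card_of_injOn (fun u => f u k)
    · intro u hu
      exact (Finset.mem_filter.1 hu).2
    · intro u hu u' hu' e
      exact hf k u (Finset.mem_filter.1 hu).1 u' (Finset.mem_filter.1 hu').1 e
  · rw [Finset.sum_const, Finset.card_univ, Fintype.card_fin, smul_eq_mul]

/-- the constant -/
noncomputable def Cf (r : ℕ) : ℝ := (r : ℝ) * Real.logb 2 (((r : ℝ) + 2) * (r.factorial * (2 * r) ^ r))

theorem one_le_fac (hr : 1 ≤ r) : (1 : ℝ) ≤ r.factorial * (2 * r) ^ r := by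
  have h1 : (1 : ℝ) ≤ r := by exact_mod_cast hr
  have h2 : (1 : ℝ) ≤ r.factorial := by exact_mod_cast Nat.succ_le_of_lt (Nat.factorial_pos r)
  have h3 : (1 : ℝ) ≤ (2 * r : ℝ) ^ r := one_le_pow₀ (by linarith)
  nlinarith

theorem det_col_bd {W : Mt r} {K : ℝ} (h : ∀ k i, |W i k| ≤ K) : |W.det| ≤ r.factorial * K ^ r :=
  det_bd (fun i k => h k i)

/-- MAIN INEQUALITY: hulls, partners, telescoping -/
theorem hull (μ : Ω → ℝ) (hμ : ∀ ω, 0 ≤ μ ω) (hms : mass μ ≤ 1) (z : Ω → Fin r → ℝ) (G : Ω → γ)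
    (D s : ℕ) (hr : 1 ≤ r) (Bd : ℕ → Set (Fin r → ℝ)) (K1 δ κ : ℝ) (X0 X1 U0 U1 : ℕ)
    (h01 : X0 < X1) (hXU : X1 ≤ U0) (hU : U0 ≤ U1) (hκ : 0 ≤ κ)
    (hbd : ∀ m, X0 ≤ m → m ≤ U1 + D → ∀ v ∈ Bd m, ∀ k, |v k| ≤ K1)
    (W0 : Mt r) (hW0 : Cols W0 (Hl Bd X1 U0)) (hδ : 0 < δ) (hd : δ ≤ |W0.det|) (E : ℕ)
    (hN : ∀ m v, X0 ≤ m → m ≤ U1 + D → v ∈ Bd m → ∃ J : Finset ℕ, J.card ≤ E ∧
      ∀ j, j ∉ J → X0 ≤ j → j ≤ U1 + D → ∀ (M : Mt r) (i : Fin r), M.det ≠ 0 → (fun k => M k i) = v →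
        (∀ v' ∈ Bd j, ∀ k, |(M⁻¹ *ᵥ v') k| ≤ 2 * r) → κ ≤ w1c μ z G M (m + j + s) D i) :
    ∃ (x : ℕ) (M : ℕ → Mt r), X0 ≤ x ∧ x < X1 ∧
      (∀ N, (M N).det ≠ 0 ∧ δ ≤ 2 * |(M N).det| ∧ Bdd K1 (M N)) ∧
      r * κ * (((U1 : ℝ) - U0) - (r * E + r * E * ((U1 : ℝ) - U0) / ((X1 : ℝ) - X0))) ≤
      ∑ N ∈ range D, CH μ (fun ω => pf (M (x + s + U1 + N)) (x + s + U1 + N) (z ω)) G -
      ∑ N ∈ range D, CH μ (fun ω => pf (M (x + s + U0 + N)) (x + s + U0 + N) (z ω)) G +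
      (Cf r * ((U1 : ℝ) - U0) + r * D * (Real.logb 2 (r.factorial * K1 ^ r) - Real.logb 2 (δ / 2))) := by
  classical
  have hr1 : (1 : ℝ) ≤ r := by exact_mod_cast hr
  have hbW : ∀ W : Mt r, Cols W (Hl Bd X0 (U1 + D)) → |W.det| ≤ r.factorial * K1 ^ r := by
    intro W hW
    apply det_bd
    intro i k
    obtain ⟨m, g1, g2, g3⟩ := hW k
    exact hbd m g1 g2 _ g3 i
  have hd0 : W0.det ≠ 0 := abs_pos.1 (lt_of_lt_of_le hδ hd)
  obtain ⟨F1, F2, m1, m2, M, hF1, hF2, hM⟩ := frames Bd _ X0 X1 U0 (U1 + D) h01.le hXU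
    (hU.trans (Nat.le_add_right _ _)) hbW W0 hW0 hd0
  -- exceptional levels
  have J1 : ∀ x k, ∃ J : Finset ℕ, J.card ≤ E ∧ (X0 ≤ x → x ≤ X1 → ∀ j, j ∉ J → X0 ≤ j → j ≤ U1 + D →
      ∀ (M : Mt r) (i : Fin r), M.det ≠ 0 → (fun k => M k i) = F1 x k →
        (∀ v' ∈ Bd j, ∀ k, |(M⁻¹ *ᵥ v') k| ≤ 2 * r) → κ ≤ w1c μ z G M (m1 x k + j + s) D i) := by
    intro x k
    by_cases h : X0 ≤ x ∧ x ≤ X1
    · obtain ⟨g1, g2, g3⟩ := hF1 x h.1 h.2 k
      obtain ⟨J, q1, q2⟩ := hN (m1 x k) (F1 x k) (h.1.trans g2)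
        (g3.trans (hU.trans (Nat.le_add_right _ _))) g1
      exact ⟨J, q1, fun _ _ => q2⟩
    · exact ⟨∅, Nat.zero_le _, fun h1 h2 => absurd ⟨h1, h2⟩ h⟩
  have J2 : ∀ u k, ∃ J : Finset ℕ, J.card ≤ E ∧ (U0 ≤ u → u ≤ U1 + D → ∀ j, j ∉ J → X0 ≤ j → j ≤ U1 + D →
      ∀ (M : Mt r) (i : Fin r), M.det ≠ 0 → (fun k => M k i) = F2 u k →
        (∀ v' ∈ Bd j, ∀ k, |(M⁻¹ *ᵥ v') k| ≤ 2 * r) → κ ≤ w1c μ z G M (m2 u k + j + s) D i) := by
    intro u k
    by_cases h : U0 ≤ u ∧ u ≤ U1 + D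
    · obtain ⟨g1, g2, g3⟩ := hF2 u h.1 h.2 k
      obtain ⟨J, q1, q2⟩ := hN (m2 u k) (F2 u k) (h01.le.trans g2) (g3.trans h.2) g1
      exact ⟨J, q1, fun _ _ => q2⟩
    · exact ⟨∅, Nat.zero_le _, fun h1 h2 => absurd ⟨h1, h2⟩ h⟩
  choose J1 hJ1c hJ1 using J1
  choose J2 hJ2c hJ2 using J2
  set A := Ico X0 X1 with hA
  set B := Ico U0 U1 with hB
  set P1 : ℕ → ℕ → Prop := fun x u => ∃ k, x + u - m1 x k ∈ J1 x k with hP1
  set P2 : ℕ → ℕ → Prop := fun x u => ∃ k, x + u - m2 u k ∈ J2 u k with hP2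
  have c1 : ∀ x, X0 ≤ x → x ≤ X1 → (B.filter (fun u => P1 x u)).card ≤ r * E := by
    intro x h1 h2
    apply partners B (fun u k => x + u - m1 x k) (fun k => J1 x k) E _ (fun k => hJ1c x k)
    · intro u _ h
      exact h
    · intro k u hu u' hu' e
      obtain ⟨_, g2, g3⟩ := hF1 x h1 h2 k
      rw [hB, Finset.mem_Ico] at hu hu'
      omega
  have c2 : ∀ u ∈ B, (A.filter (fun x => P2 x u)).card ≤ r * E := by
    intro u hu
    rw [hB, Finset.mem_Ico] at hu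
    apply partners A (fun x k => x + u - m2 u k) (fun k => J2 u k) E _ (fun k => hJ2c u k)
    · intro u _ h
      exact h
    · intro k x hx x' hx' e
      obtain ⟨_, g2, g3⟩ := hF2 u hu.1 (by omega) k
      rw [hA, Finset.mem_Ico] at hx hx'
      omega
  obtain ⟨x, hxA, hx⟩ := average A B P2 (r * E) (by rw [hA, Finset.nonempty_Ico]; exact h01) c2
  rw [hA, Finset.mem_Ico] at hxA
  have hx1 := c1 x hxA.1 hxA.2.le
  -- the frames
  set cl : ℕ → ℕ := fun N => min (max (N - (x + s)) U0) (U1 + D) with hcl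
  have cl1 : ∀ N, U0 ≤ cl N ∧ cl N ≤ U1 + D := fun N => by
    simp only [hcl]
    omega
  have clm : ∀ N N', N ≤ N' → cl N ≤ cl N' := fun N N' h => by
    simp only [hcl]
    omega
  set MM : ℕ → Mt r := fun N => M x (cl N) with hMM
  have hMM1 := fun N => hM x (cl N) hxA.1 hxA.2.le (cl1 N).1 (cl1 N).2
  have GG : ∀ N, Bdd (2 * r) ((MM (N + D))⁻¹ * MM N) := by
    intro N i k
    have g1 : (fun j => MM N j k) ∈ Hl Bd x (cl (N + D)) :=
      Hl_mono Bd le_rfl (clm _ _ (Nat.le_add_right N D)) ((hMM1 N).2.2.2.1 k)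
    have g2 := (hMM1 (N + D)).2.2.2.2 _ g1 i
    have e : ((MM (N + D))⁻¹ *ᵥ (fun j => MM N j k)) i = ((MM (N + D))⁻¹ * MM N) i k := by
      rw [Matrix.mul_apply, Matrix.mulVec, dotProduct]
    rw [← e]
    exact g2
  have dt : ∀ N, (MM N).det ≠ 0 := fun N => (hMM1 N).2.1
  have dG : ∀ N, ((MM (N + D))⁻¹ * MM N).det = (MM N).det / (MM (N + D)).det := by
    intro N
    rw [Matrix.det_mul, Matrix.det_nonsing_inv, Ring.inverse_eq_inv]
    field_simp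
  have dG0 : ∀ N, ((MM (N + D))⁻¹ * MM N).det ≠ 0 := fun N => by
    rw [dG]
    exact div_ne_zero (dt _) (dt _)
  set c0 : ℝ := r.factorial * (2 * r) ^ r with hc0
  have hc01 : 1 ≤ c0 := one_le_fac hr
  set ρ : ℕ → ℝ := fun N => |(MM (N + D)).det| / |(MM N).det| with hρ
  have ρpos : ∀ N, 0 < ρ N := fun N => div_pos (abs_pos.2 (dt _)) (abs_pos.2 (dt _))
  have ρlow : ∀ N, 1 ≤ c0 * ρ N := by
    intro N
    have := det_bd (GG N)
    rw [dG, abs_div] at this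
    have h1 := abs_pos.2 (dt N)
    have h2 := abs_pos.2 (dt (N + D))
    show 1 ≤ c0 * (|(MM (N + D)).det| / |(MM N).det|)
    rw [div_le_iff₀ h2] at this
    rw [mul_div_assoc', le_div_iff₀ h1, one_mul]
    exact this
  have KB : ∀ N, Bdd (c0 * ρ N) ((MM N)⁻¹ * MM (N + D)) := by
    intro N
    have e : (MM N)⁻¹ * MM (N + D) = ((MM (N + D))⁻¹ * MM N)⁻¹ := by
      rw [Matrix.mul_inv_rev, Matrix.nonsing_inv_nonsing_inv _ (isUnit_iff_ne_zero.2 (dt _))]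
    rw [e]
    have h := inv_bd (C := 2 * r) (by linarith) (GG N)
    rw [dG, abs_div, inv_div] at h
    exact h
  have T := tel μ hμ z G MM dt D (fun N => c0 * ρ N) (fun N => by have := ρpos N; positivity) KB
    (x + s + U0) (x + s + U1) (by omega)
  -- lower bound of the windows
  have low : r * κ * ((U1 : ℝ) - U0 - (r * E + r * E * ((U1 : ℝ) - U0) / ((X1 : ℝ) - X0))) ≤
      ∑ N ∈ Ico (x + s + U0) (x + s + U1),
        CH μ (fun ω => pf (MM N) (N + D) (z ω)) (fun ω => (pf (MM N) N (z ω), G ω)) := by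
    have e1 : ∑ N ∈ Ico (x + s + U0) (x + s + U1),
        CH μ (fun ω => pf (MM N) (N + D) (z ω)) (fun ω => (pf (MM N) N (z ω), G ω)) =
        ∑ u ∈ B, CH μ (fun ω => pf (MM (x + s + u)) (x + s + u + D) (z ω))
          (fun ω => (pf (MM (x + s + u)) (x + s + u) (z ω), G ω)) := by
      rw [hB, Finset.sum_Ico_add (fun N => CH μ (fun ω => pf (MM N) (N + D) (z ω))
        (fun ω => (pf (MM N) N (z ω), G ω))) U0 U1 (x + s), add_comm U0 (x + s), add_comm U1 (x + s)]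
    rw [e1]
    have e2 : ∀ u ∈ B, (if P1 x u ∨ P2 x u then 0 else r * κ) ≤
        CH μ (fun ω => pf (MM (x + s + u)) (x + s + u + D) (z ω))
          (fun ω => (pf (MM (x + s + u)) (x + s + u) (z ω), G ω)) := by
      intro u hu
      rw [hB, Finset.mem_Ico] at hu
      split_ifs with hb
      · exact ch_nonneg μ hμ _ _
      · push Not at hb
        obtain ⟨hb1, hb2⟩ := hb
        refine le_trans ?_ (win_sum μ hμ z G (MM (x + s + u)) (x + s + u) D)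
        have e3 : cl (x + s + u) = u := by
          simp only [hcl]
          omega
        have e4 : MM (x + s + u) = M x u := by
          show M x (cl (x + s + u)) = _
          rw [e3]
        obtain ⟨g1, g2, g3, g4, g5⟩ := hM x u hxA.1 hxA.2.le hu.1 (by omega)
        have e5 : ∀ i, κ ≤ w1c μ z G (M x u) (x + s + u) D i := by
          intro i
          rcases g1 i with ⟨k, hk⟩ | ⟨k, hk⟩
          · obtain ⟨q1, q2, q3⟩ := hF1 x hxA.1 hxA.2.le k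
            have q4 : x + u - m1 x k ∉ J1 x k := fun h => hb1 ⟨k, h⟩
            have q5 := hJ1 x k hxA.1 hxA.2.le _ q4 (by omega) (by omega) (M x u) i g2 hk
              (fun v' hv' k' => g5 v' ⟨_, by omega, by omega, hv'⟩ k')
            have q6 : m1 x k + (x + u - m1 x k) + s = x + s + u := by omega
            rw [q6] at q5
            exact q5
          · obtain ⟨q1, q2, q3⟩ := hF2 u hu.1 (by omega) k
            have q4 : x + u - m2 u k ∉ J2 u k := fun h => hb2 ⟨k, h⟩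
            have q5 := hJ2 u k hu.1 (by omega) _ q4 (by omega) (by omega) (M x u) i g2 hk
              (fun v' hv' k' => g5 v' ⟨_, by omega, by omega, hv'⟩ k')
            have q6 : m2 u k + (x + u - m2 u k) + s = x + s + u := by omega
            rw [q6] at q5
            exact q5
        rw [e4]
        refine le_trans (le_of_eq ?_) (Finset.sum_le_sum fun i _ => e5 i)
        rw [Finset.sum_const, Finset.card_univ, Fintype.card_fin, nsmul_eq_mul]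
    refine le_trans ?_ (Finset.sum_le_sum e2)
    rw [Finset.sum_ite, Finset.sum_const_zero, zero_add, Finset.sum_const, nsmul_eq_mul, mul_comm]
    have hrk : 0 ≤ r * κ := by positivity
    apply mul_le_mul_of_nonneg_right _ hrk
    have e6 : (B.filter (fun u => ¬(P1 x u ∨ P2 x u))).card + ((B.filter (fun u => P1 x u)).card +
        (B.filter (fun u => P2 x u)).card) ≥ B.card := by
      have h1 := Finset.card_filter_add_card_filter_not (s := B) (fun u => P1 x u ∨ P2 x u)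
      have h2 : (B.filter (fun u => P1 x u ∨ P2 x u)).card ≤ (B.filter (fun u => P1 x u)).card +
          (B.filter (fun u => P2 x u)).card := by
        rw [Finset.filter_or]
        exact Finset.card_union_le _ _
      omega
    have e7 : (B.card : ℝ) = (U1 : ℝ) - U0 := by
      rw [hB, Nat.card_Ico, Nat.cast_sub hU]
    have e8 : (A.card : ℝ) = (X1 : ℝ) - X0 := by
      rw [hA, Nat.card_Ico, Nat.cast_sub h01.le]
    have e9 : (0 : ℝ) < (X1 : ℝ) - X0 := by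
      have : (X0 : ℝ) < X1 := by exact_mod_cast h01
      linarith
    have e10 : ((B.filter (fun u => P2 x u)).card : ℝ) ≤ r * E * ((U1 : ℝ) - U0) / ((X1 : ℝ) - X0) := by
      rw [le_div_iff₀ e9, ← e7, ← e8, mul_comm]
      exact_mod_cast hx
    have e11 : ((B.filter (fun u => P1 x u)).card : ℝ) ≤ r * E := by exact_mod_cast hx1
    have e12 : (B.card : ℝ) ≤ ((B.filter (fun u => ¬(P1 x u ∨ P2 x u))).card : ℝ) +
        (((B.filter (fun u => P1 x u)).card : ℝ) + (B.filter (fun u => P2 x u)).card) := by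
      exact_mod_cast e6
    rw [e7] at e12
    linarith
  -- the costs
  have cost : ∑ N ∈ Ico (x + s + U0) (x + s + U1), r * Real.logb 2 (r * (c0 * ρ N) + 2) * mass μ ≤
      Cf r * ((U1 : ℝ) - U0) + r * D * (Real.logb 2 (r.factorial * K1 ^ r) - Real.logb 2 (δ / 2)) := by
    have hm0 := mass_nonneg μ hμ
    have d1 : ∀ N, r * Real.logb 2 (r * (c0 * ρ N) + 2) * mass μ ≤
        Cf r + r * (Real.logb 2 |(MM (N + D)).det| - Real.logb 2 |(MM N).det|) := by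
      intro N
      have h1 := ρlow N
      have h2 := ρpos N
      have h3 : Real.logb 2 (r * (c0 * ρ N) + 2) ≤ Real.logb 2 (((r : ℝ) + 2) * c0) + Real.logb 2 (ρ N) := by
        rw [← Real.logb_mul (by positivity) h2.ne']
        apply Real.logb_le_logb_of_le (by norm_num) (by positivity)
        nlinarith
      have h4 : 0 ≤ Real.logb 2 (r * (c0 * ρ N) + 2) := by
        apply Real.logb_nonneg (by norm_num)
        have : 0 ≤ r * (c0 * ρ N) := by positivity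
        linarith
      have h5 : Real.logb 2 (ρ N) = Real.logb 2 |(MM (N + D)).det| - Real.logb 2 |(MM N).det| := by
        show Real.logb 2 (|(MM (N + D)).det| / |(MM N).det|) = _
        rw [Real.logb_div (abs_pos.2 (dt _)).ne' (abs_pos.2 (dt _)).ne']
      have h6 : r * Real.logb 2 (r * (c0 * ρ N) + 2) * mass μ ≤ r * Real.logb 2 (r * (c0 * ρ N) + 2) := by
        apply mul_le_of_le_one_right _ hms
        positivity
      have h7 : (r : ℝ) * Real.logb 2 (r * (c0 * ρ N) + 2) ≤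
          r * (Real.logb 2 (((r : ℝ) + 2) * c0) + Real.logb 2 (ρ N)) :=
        mul_le_mul_of_nonneg_left h3 (by positivity)
      rw [h5] at h7
      rw [Cf]
      linarith
    refine (Finset.sum_le_sum fun N _ => d1 N).trans ?_
    rw [Finset.sum_add_distrib, Finset.sum_const, Nat.card_Ico, nsmul_eq_mul, ← Finset.mul_sum,
      sum_shift (fun N => Real.logb 2 |(MM N).det|) (x + s + U0) (x + s + U1) D (by omega)]
    have d2 : ∀ N, Real.logb 2 |(MM N).det| ≤ Real.logb 2 (r.factorial * K1 ^ r) := by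
      intro N
      apply Real.logb_le_logb_of_le (by norm_num) (abs_pos.2 (dt _))
      exact hbW _ ((hMM1 N).2.2.2.1.mono (Hl_mono Bd hxA.1 (cl1 N).2))
    have d3 : ∀ N, Real.logb 2 (δ / 2) ≤ Real.logb 2 |(MM N).det| := by
      intro N
      apply Real.logb_le_logb_of_le (by norm_num) (by linarith)
      have := (hMM1 N).2.2.1
      show δ / 2 ≤ |(M x (cl N)).det|
      linarith
    have d4 : ∑ N ∈ range D, Real.logb 2 |(MM (x + s + U1 + N)).det| ≤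
        D * Real.logb 2 (r.factorial * K1 ^ r) := by
      refine (Finset.sum_le_sum fun N _ => d2 _).trans (le_of_eq ?_)
      rw [Finset.sum_const, Finset.card_range, nsmul_eq_mul]
    have d5 : D * Real.logb 2 (δ / 2) ≤ ∑ N ∈ range D, Real.logb 2 |(MM (x + s + U0 + N)).det| := by
      refine le_trans (le_of_eq ?_) (Finset.sum_le_sum fun N _ => d3 _)
      rw [Finset.sum_const, Finset.card_range, nsmul_eq_mul]
    have d6 : ((x + s + U1 - (x + s + U0) : ℕ) : ℝ) = (U1 : ℝ) - U0 := by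
      rw [Nat.add_sub_add_left, Nat.cast_sub hU]
    rw [d6]
    have hr0 : (0 : ℝ) ≤ r := by positivity
    have d7 := mul_le_mul_of_nonneg_left (sub_le_sub d4 d5) hr0
    nlinarith
  refine ⟨x, MM, hxA.1, hxA.2, fun N => ⟨dt N, ?_, ?_⟩, ?_⟩
  · have := (hMM1 N).2.2.1
    show δ ≤ 2 * |(M x (cl N)).det|
    linarith
  · intro i k
    obtain ⟨m, g1, g2, g3⟩ := (hMM1 N).2.2.2.1 k
    exact hbd m (hxA.1.trans g1) (g2.trans (cl1 N).2) _ g3 i
  · linarith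

/-- cells of level `N` -/
noncomputable def fz (N : ℕ) (z : Fin r → ℝ) : Fin r → ℤ := fun k => ⌊(2 : ℝ) ^ N * z k⌋

theorem pf_one (N : ℕ) (z : Fin r → ℝ) : pf (1 : Mt r) N z = fz N z := by
  funext k
  rw [pf, fz, inv_one, Matrix.one_mulVec]

theorem fz_mono (μ : Ω → ℝ) (hμ : ∀ ω, 0 ≤ μ ω) (z : Ω → Fin r → ℝ) (G : Ω → γ) {N N' : ℕ} (h : N ≤ N') :
    CH μ (fun ω => fz N (z ω)) G ≤ CH μ (fun ω => fz N' (z ω)) G :=
  ch_mono μ hμ _ _ _ fun _ _ _ _ e _ => funext fun k => fl_ref h (congrFun e k)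

/-- MAIN INEQUALITY with standard cells at both ends -/
theorem hull_std (μ : Ω → ℝ) (hμ : ∀ ω, 0 ≤ μ ω) (hms : mass μ ≤ 1) (z : Ω → Fin r → ℝ) (G : Ω → γ)
    (D s : ℕ) (hr : 1 ≤ r) (Bd : ℕ → Set (Fin r → ℝ)) (K1 δ κ : ℝ) (X0 X1 U0 U1 : ℕ)
    (h01 : X0 < X1) (hXU : X1 ≤ U0) (hU : U0 ≤ U1) (hK1 : 1 ≤ K1) (hκ : 0 ≤ κ)
    (hbd : ∀ m, X0 ≤ m → m ≤ U1 + D → ∀ v ∈ Bd m, ∀ k, |v k| ≤ K1)
    (W0 : Mt r) (hW0 : Cols W0 (Hl Bd X1 U0)) (hδ : 0 < δ) (hd : δ ≤ |W0.det|) (E : ℕ)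
    (hN : ∀ m v, X0 ≤ m → m ≤ U1 + D → v ∈ Bd m → ∃ J : Finset ℕ, J.card ≤ E ∧
      ∀ j, j ∉ J → X0 ≤ j → j ≤ U1 + D → ∀ (M : Mt r) (i : Fin r), M.det ≠ 0 → (fun k => M k i) = v →
        (∀ v' ∈ Bd j, ∀ k, |(M⁻¹ *ᵥ v') k| ≤ 2 * r) → κ ≤ w1c μ z G M (m + j + s) D i) :
    ∃ x : ℕ, X0 ≤ x ∧ x < X1 ∧
      r * κ * (((U1 : ℝ) - U0) - (r * E + r * E * ((U1 : ℝ) - U0) / ((X1 : ℝ) - X0))) ≤
      D * (CH μ (fun ω => fz (x + s + U1 + D) (z ω)) G - CH μ (fun ω => fz (x + s + U0) (z ω)) G) +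
      (Cf r * ((U1 : ℝ) - U0) + r * D * (Real.logb 2 (r.factorial * K1 ^ r) - Real.logb 2 (δ / 2))) +
      2 * (r * D * Real.logb 2 (r * (r.factorial * K1 ^ r * (2 / δ) + K1) + 2)) := by
  obtain ⟨x, M, hx0, hx1, hM, h⟩ := hull μ hμ hms z G D s hr Bd K1 δ κ X0 X1 U0 U1 h01 hXU hU hκ hbd W0
    hW0 hδ hd E hN
  refine ⟨x, hx0, hx1, ?_⟩
  set K : ℝ := r.factorial * K1 ^ r * (2 / δ) + K1 with hK
  have hK0 : 0 ≤ K := by positivity
  have hm0 := mass_nonneg μ hμ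
  have hlog : 0 ≤ Real.logb 2 (r * K + 2) := Real.logb_nonneg (by norm_num) (by
    have : 0 ≤ r * K := by positivity
    linarith)
  have hrl : (r : ℝ) * Real.logb 2 (r * K + 2) * mass μ ≤ r * Real.logb 2 (r * K + 2) :=
    mul_le_of_le_one_right (by positivity) hms
  have up : ∀ N, CH μ (fun ω => pf (M N) N (z ω)) G ≤ CH μ (fun ω => fz N (z ω)) G +
      r * Real.logb 2 (r * K + 2) := by
    intro N
    obtain ⟨d1, d2, d3⟩ := hM N
    have b1 : Bdd K ((M N)⁻¹ * 1) := by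
      rw [Matrix.mul_one]
      refine (inv_bd hK1 d3).mono ?_
      have h1 := abs_pos.2 d1
      have h2 : |(M N).det|⁻¹ ≤ 2 / δ := by
        rw [inv_eq_one_div, div_le_div_iff₀ h1 hδ]
        linarith
      have h3 : (r.factorial : ℝ) * K1 ^ r * |(M N).det|⁻¹ ≤ r.factorial * K1 ^ r * (2 / δ) :=
        mul_le_mul_of_nonneg_left h2 (by positivity)
      linarith
    have h2 := pf_compare μ hμ z G (M N) 1 (by rw [Matrix.det_one]; exact one_ne_zero) K hK0 b1 N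
    simp only [pf_one] at h2
    linarith
  have lo : ∀ N, CH μ (fun ω => fz N (z ω)) G ≤ CH μ (fun ω => pf (M N) N (z ω)) G +
      r * Real.logb 2 (r * K + 2) := by
    intro N
    obtain ⟨d1, d2, d3⟩ := hM N
    have b1 : Bdd K ((1 : Mt r)⁻¹ * M N) := by
      rw [inv_one, Matrix.one_mul]
      refine d3.mono ?_
      have : (0 : ℝ) ≤ r.factorial * K1 ^ r * (2 / δ) := by positivity
      linarith
    have h2 := pf_compare μ hμ z G 1 (M N) d1 K hK0 b1 N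
    simp only [pf_one] at h2
    linarith
  have s1 : ∑ N ∈ range D, CH μ (fun ω => pf (M (x + s + U1 + N)) (x + s + U1 + N) (z ω)) G ≤
      D * (CH μ (fun ω => fz (x + s + U1 + D) (z ω)) G + r * Real.logb 2 (r * K + 2)) := by
    refine (Finset.sum_le_sum (g := fun _ => CH μ (fun ω => fz (x + s + U1 + D) (z ω)) G +
      r * Real.logb 2 (r * K + 2)) fun N hN => ?_).trans (le_of_eq ?_)
    · have h1 := up (x + s + U1 + N)
      have h2 := fz_mono μ hμ z G (N := x + s + U1 + N) (N' := x + s + U1 + D) (by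
        rw [Finset.mem_range] at hN
        omega)
      linarith
    · rw [Finset.sum_const, Finset.card_range, nsmul_eq_mul]
  have s2 : D * (CH μ (fun ω => fz (x + s + U0) (z ω)) G - r * Real.logb 2 (r * K + 2)) ≤
      ∑ N ∈ range D, CH μ (fun ω => pf (M (x + s + U0 + N)) (x + s + U0 + N) (z ω)) G := by
    refine le_trans (le_of_eq ?_) (Finset.sum_le_sum (f := fun _ => CH μ (fun ω => fz (x + s + U0) (z ω)) G -
      r * Real.logb 2 (r * K + 2)) fun N hN => ?_)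
    · rw [Finset.sum_const, Finset.card_range, nsmul_eq_mul]
    · have h1 := lo (x + s + U0 + N)
      have h2 := fz_mono μ hμ z G (N := x + s + U0) (N' := x + s + U0 + N) (by omega)
      linarith
  linarith

end Pool.Agent.Helper26.VW
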